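import Pool.Agent.H77.KM.Basic

set_option autoImplicit false

open Finset Function
open scoped BigOperators

namespace Pool.Agent.H77.KM

/-- Numerical input: `(11/10)^(26 q) ≥ 2^8 (5/2)^(2q)` for `q ≥ 11`. -/
lemma num_unbalance {q : ℕ} (hq : 11 ≤ q) :
    (2 : ℝ) ^ 8 * (5 / 2) ^ (2 * q) ≤ (11 / 10) ^ (26 * q) := by
  have h1 : (19 / 10 : ℝ) * (5 / 2) ^ 2 ≤ (11 / 10) ^ 26 := by norm_num
  have h2 : ((19 / 10 : ℝ) * (5 / 2) ^ 2) ^ q ≤ ((11 / 10) ^ 26) ^ q :=
    pow_le_pow_left₀ (by positivity) h1 q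
  rw [mul_pow, ← pow_mul, ← pow_mul] at h2
  refine le_trans ?_ h2
  have h3 : (2 : ℝ) ^ 8 ≤ (19 / 10) ^ q := by
    calc (2 : ℝ) ^ 8 ≤ (19 / 10) ^ 11 := by norm_num
      _ ≤ (19 / 10) ^ q := pow_le_pow_right₀ (by norm_num) hq
  exact mul_le_mul_of_nonneg_right h3 (by positivity)

/-- The unbalancing step: a function all of whose odd moments are nonnegative and whose
even moment is not too small has a large shifted moment. -/
lemma unbalance {V : Type*} [Fintype V] [Nonempty V] (F : V → ℝ) (hG : ∀ x, 0 ≤ 1 + F x)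
    {p : ℕ} (hp : Even p) (hp10 : 10 ≤ p) (hodd : 0 ≤ 𝔼 x, F x ^ (p + 1))
    (hbig : (1 / 2 : ℝ) ^ p ≤ 𝔼 x, F x ^ p) :
    (5 / 4 : ℝ) ^ (26 * (p + 1)) ≤ 𝔼 x, (1 + F x) ^ (26 * (p + 1)) := by
  classical
  set q := p + 1 with hqdef
  have hqodd : Odd q := hp.add_one
  have hq11 : 11 ≤ q := by omega
  have hne : (Finset.univ : Finset V).Nonempty := Finset.univ_nonempty
  -- step 1
  have step1 : (1 / 2 : ℝ) ^ (q + 2) ≤ 𝔼 x, |F x| ^ q := by
    have h1 : ∀ x, (1 / 4 : ℝ) * (F x ^ p - (1 / 4) ^ p) ≤ |F x| ^ q := by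
      intro x
      rcases le_or_gt (1 / 4 : ℝ) |F x| with h | h
      · have : |F x| ^ q = |F x| * F x ^ p := by
          rw [hqdef, pow_succ, hp.pow_abs, mul_comm]
        rw [this]
        have h0 : (0 : ℝ) ≤ F x ^ p := hp.pow_nonneg _
        have h4 : (0 : ℝ) ≤ (1 / 4) ^ p := by positivity
        nlinarith
      · have h2 : F x ^ p ≤ (1 / 4) ^ p := by
          rw [← hp.pow_abs]
          exact pow_le_pow_left₀ (abs_nonneg _) h.le p
        have h3 : (0 : ℝ) ≤ |F x| ^ q := by positivity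
        nlinarith
    have h2 : 𝔼 x, (1 / 4 : ℝ) * (F x ^ p - (1 / 4) ^ p) ≤ 𝔼 x, |F x| ^ q :=
      Finset.expect_le_expect (fun x _ => h1 x)
    rw [← Finset.mul_expect, Finset.expect_sub_distrib, Finset.expect_const hne] at h2
    have h3 : (1 / 4 : ℝ) ^ p ≤ (1 / 2) * (1 / 2) ^ p := by
      have : (1 / 4 : ℝ) ^ p = (1 / 2) ^ p * (1 / 2) ^ p := by
        rw [← mul_pow]; norm_num
      rw [this]
      refine mul_le_mul_of_nonneg_right ?_ (by positivity)
      calc (1 / 2 : ℝ) ^ p ≤ (1 / 2) ^ 1 :=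
            pow_le_pow_of_le_one (by norm_num) (by norm_num) (by omega)
        _ = 1 / 2 := by norm_num
    have h4 : (1 / 2 : ℝ) ^ (q + 2) = (1 / 8) * (1 / 2) ^ p := by
      rw [hqdef, show p + 1 + 2 = p + 3 by ring, pow_add]; norm_num; ring
    rw [h4]
    nlinarith
  -- step 2
  set ind : V → ℝ := fun x => if 3 / 8 ≤ F x then 1 else 0 with hind
  have step2 : (1 / 2 : ℝ) ^ (q + 4) ≤ 𝔼 x, F x ^ q * ind x := by
    have h1 : ∀ x, |F x| ^ q + F x ^ q ≤ 2 * (F x ^ q * ind x) + 2 * (3 / 8) ^ q := by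
      intro x
      have hpos : (0 : ℝ) ≤ (3 / 8) ^ q := by positivity
      rcases le_or_gt (3 / 8 : ℝ) (F x) with h | h
      · have h0 : 0 ≤ F x := by linarith
        simp only [hind, h, if_true, abs_of_nonneg h0]
        linarith
      · have hi : ind x = 0 := by simp only [hind]; rw [if_neg (not_le.mpr h)]
        rw [hi]
        rcases le_or_gt 0 (F x) with h0 | h0
        · rw [abs_of_nonneg h0]
          have := pow_le_pow_left₀ h0 h.le q
          linarith
        · rw [abs_of_neg h0, hqodd.neg_pow]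
          linarith
    have h2 : 𝔼 x, (|F x| ^ q + F x ^ q) ≤ 𝔼 x, (2 * (F x ^ q * ind x) + 2 * (3 / 8) ^ q) :=
      Finset.expect_le_expect (fun x _ => h1 x)
    rw [Finset.expect_add_distrib, Finset.expect_add_distrib, ← Finset.mul_expect,
      Finset.expect_const hne] at h2
    have h3 : (3 / 8 : ℝ) ^ q ≤ (1 / 16) * (1 / 2) ^ q := by
      have : (3 / 8 : ℝ) ^ q = (3 / 4) ^ q * (1 / 2) ^ q := by
        rw [← mul_pow]; norm_num
      rw [this]
      refine mul_le_mul_of_nonneg_right ?_ (by positivity)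
      calc (3 / 4 : ℝ) ^ q ≤ (3 / 4) ^ 11 :=
            pow_le_pow_of_le_one (by norm_num) (by norm_num) hq11
        _ ≤ 1 / 16 := by norm_num
    have h4 : (1 / 2 : ℝ) ^ (q + 2) = (1 / 4) * (1 / 2) ^ q := by
      rw [pow_add]; norm_num; ring
    have h5 : (1 / 2 : ℝ) ^ (q + 4) = (1 / 16) * (1 / 2) ^ q := by
      rw [pow_add]; norm_num; ring
    rw [h4] at step1
    rw [h5]
    linarith
  -- step 3
  set K : ℝ := 𝔼 x, (1 + F x) ^ (2 * q) with hK
  set μ : ℝ := 𝔼 x, ind x with hμ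
  have hind01 : ∀ x, ind x * ind x = ind x := by
    intro x
    simp only [hind]
    split_ifs <;> norm_num
  have hind0 : ∀ x, 0 ≤ ind x := by
    intro x
    simp only [hind]
    split_ifs <;> norm_num
  have step3 : (1 / 2 : ℝ) ^ (2 * q + 8) ≤ K * μ := by
    have h1 := Finset.expect_mul_sq_le_sq_mul_sq (Finset.univ : Finset V)
      (fun x => F x ^ q * ind x) (fun x => ind x)
    have h2 : 𝔼 x, F x ^ q * ind x * ind x = 𝔼 x, F x ^ q * ind x :=
      Finset.expect_congr rfl (fun x _ => by rw [mul_assoc, hind01])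
    have h3 : 𝔼 x, ind x ^ 2 = μ := by
      rw [hμ]
      exact Finset.expect_congr rfl (fun x _ => by rw [sq, hind01])
    have h4 : 𝔼 x, (F x ^ q * ind x) ^ 2 ≤ K := by
      rw [hK]
      refine Finset.expect_le_expect (fun x _ => ?_)
      rcases le_or_gt (3 / 8 : ℝ) (F x) with h | h
      · have h0 : 0 ≤ F x := by linarith
        simp only [hind, h, if_true, mul_one]
        rw [← pow_mul, mul_comm q 2]
        exact pow_le_pow_left₀ h0 (by linarith) _
      · have hi : ind x = 0 := by simp only [hind]; rw [if_neg (not_le.mpr h)]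
        rw [hi]
        simp only [mul_zero, ne_eq, OfNat.ofNat_ne_zero, not_false_eq_true, zero_pow]
        exact pow_nonneg (hG x) _
    rw [h2, h3] at h1
    have h5 : ((1 / 2 : ℝ) ^ (q + 4)) ^ 2 ≤ (𝔼 x, F x ^ q * ind x) ^ 2 :=
      pow_le_pow_left₀ (by positivity) step2 2
    have h6 : ((1 / 2 : ℝ) ^ (q + 4)) ^ 2 = (1 / 2) ^ (2 * q + 8) := by
      rw [← pow_mul]; congr 1; ring
    rw [h6] at h5
    have hμ0 : 0 ≤ μ := Finset.expect_nonneg (fun x _ => hind0 x)
    calc (1 / 2 : ℝ) ^ (2 * q + 8) ≤ (𝔼 x, (F x ^ q * ind x) ^ 2) * μ := le_trans h5 h1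
      _ ≤ K * μ := mul_le_mul_of_nonneg_right h4 hμ0
  have hKpos : 0 ≤ K := Finset.expect_nonneg (fun x _ => pow_nonneg (hG x) _)
  have step4 : K ^ 13 ≤ 𝔼 x, (1 + F x) ^ (26 * q) := by
    have := expect_pow_le hne (fun x => (1 + F x) ^ (2 * q)) (fun x _ => pow_nonneg (hG x) _) 13
    refine le_trans this (le_of_eq ?_)
    refine Finset.expect_congr rfl (fun x _ => ?_)
    rw [← pow_mul]; congr 1; ring
  have step5 : (11 / 8 : ℝ) ^ (26 * q) * μ ≤ 𝔼 x, (1 + F x) ^ (26 * q) := by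
    rw [hμ, Finset.mul_expect]
    refine Finset.expect_le_expect (fun x _ => ?_)
    rcases le_or_gt (3 / 8 : ℝ) (F x) with h | h
    · simp only [hind, h, if_true, mul_one]
      exact pow_le_pow_left₀ (by norm_num) (by linarith) _
    · have hi : ind x = 0 := by simp only [hind]; rw [if_neg (not_le.mpr h)]
      rw [hi, mul_zero]
      exact pow_nonneg (hG x) _
  rcases le_or_gt ((5 / 4 : ℝ) ^ (2 * q)) K with hc | hc
  · refine le_trans ?_ step4
    have := pow_le_pow_left₀ (by positivity) hc 13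
    refine le_trans (le_of_eq ?_) this
    rw [← pow_mul]; congr 1; ring
  · refine le_trans ?_ step5
    have hKμ : (1 / 2 : ℝ) ^ (2 * q + 8) ≤ (5 / 4) ^ (2 * q) * μ := by
      have hμ0 : 0 ≤ μ := Finset.expect_nonneg (fun x _ => hind0 x)
      exact le_trans step3 (mul_le_mul_of_nonneg_right hc.le hμ0)
    have hnum := num_unbalance hq11
    -- (11/8)^(26q) = (5/4)^(26q) (11/10)^(26q)
    have e1 : (11 / 8 : ℝ) ^ (26 * q) = (5 / 4) ^ (26 * q) * (11 / 10) ^ (26 * q) := by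
      rw [← mul_pow]; norm_num
    rw [e1, mul_assoc]
    refine le_mul_of_one_le_right (by positivity) ?_
    have e2 : (1 : ℝ) = (2 ^ 8 * (5 / 2) ^ (2 * q)) * ((4 / 5) ^ (2 * q) * (1 / 2) ^ (2 * q + 8)) := by
      have : (5 / 2 : ℝ) ^ (2 * q) * ((4 / 5) ^ (2 * q) * (1 / 2) ^ (2 * q)) = 1 := by
        rw [← mul_pow, ← mul_pow]; norm_num
      calc (1 : ℝ) = (2 : ℝ) ^ 8 * (1 / 2) ^ 8
            * ((5 / 2 : ℝ) ^ (2 * q) * ((4 / 5) ^ (2 * q) * (1 / 2) ^ (2 * q))) := by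
            rw [this]; norm_num
        _ = _ := by rw [pow_add]; ring
    rw [e2]
    refine mul_le_mul hnum ?_ (by positivity) (by positivity)
    have e3 : (4 / 5 : ℝ) ^ (2 * q) * (5 / 4) ^ (2 * q) = 1 := by
      rw [← mul_pow]; norm_num
    calc (4 / 5 : ℝ) ^ (2 * q) * (1 / 2) ^ (2 * q + 8)
        ≤ (4 / 5 : ℝ) ^ (2 * q) * ((5 / 4) ^ (2 * q) * μ) :=
          mul_le_mul_of_nonneg_left hKμ (by positivity)
      _ = μ := by rw [← mul_assoc, e3, one_mul]

end Pool.Agent.H77.KM
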