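import Mathlib

set_option autoImplicit false

open Finset Function
open scoped BigOperators

namespace Pool.Agent.H77.KM

section Translate

variable {V : Type*} [AddCommGroup V] [Fintype V]

/-- Averages are translation invariant. -/
lemma expect_add_right (f : V → ℝ) (t : V) : 𝔼 x, f (x + t) = 𝔼 x, f x :=
  Fintype.expect_equiv (Equiv.addRight t) _ _ (fun _ => rfl)

lemma expect_add_left (f : V → ℝ) (t : V) : 𝔼 x, f (t + x) = 𝔼 x, f x :=
  Fintype.expect_equiv (Equiv.addLeft t) _ _ (fun _ => rfl)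

/-- Averages over tuples are invariant under a diagonal translation. -/
lemma expect_tuple_add {k : ℕ} (F : (Fin k → V) → ℝ) (t : V) :
    𝔼 y : Fin k → V, F (fun i => y i + t) = 𝔼 y : Fin k → V, F y :=
  Fintype.expect_equiv (Equiv.addRight (fun _ : Fin k => t)) _ _ (fun _ => rfl)

/-- The `k`-th power of an average is an average over `k`-tuples. -/
lemma expect_pow_univ {ι : Type*} [Fintype ι] (f : ι → ℝ) (n : ℕ) :
    (𝔼 i, f i) ^ n = 𝔼 p : Fin n → ι, ∏ i, f (p i) := by
  classical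
  rw [Finset.expect_pow, Fintype.piFinset_univ]

end Translate

section Jensen

variable {ι : Type*} {s : Finset ι}

lemma expect_eq_weighted (s : Finset ι) (f : ι → ℝ) :
    𝔼 i ∈ s, f i = ∑ i ∈ s, (s.card : ℝ)⁻¹ * f i := by
  rw [Finset.expect_eq_sum_div_card, ← Finset.mul_sum, div_eq_inv_mul]

lemma weights_sum_one (hs : s.Nonempty) : ∑ _i ∈ s, (s.card : ℝ)⁻¹ = 1 := by
  have hc : (s.card : ℝ) ≠ 0 := by exact_mod_cast hs.card_ne_zero
  rw [Finset.sum_const, nsmul_eq_mul, mul_inv_cancel₀ hc]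

/-- Jensen for even powers of averages. -/
lemma expect_pow_even_le (hs : s.Nonempty) (f : ι → ℝ) {n : ℕ} (hn : Even n) :
    (𝔼 i ∈ s, f i) ^ n ≤ 𝔼 i ∈ s, f i ^ n := by
  rw [expect_eq_weighted, expect_eq_weighted]
  exact Real.pow_arith_mean_le_arith_mean_pow_of_even s _ f
    (fun _ _ => by positivity) (weights_sum_one hs) hn

/-- Jensen for powers of averages of nonnegative functions. -/
lemma expect_pow_le (hs : s.Nonempty) (f : ι → ℝ) (hf : ∀ i ∈ s, 0 ≤ f i) (n : ℕ) :
    (𝔼 i ∈ s, f i) ^ n ≤ 𝔼 i ∈ s, f i ^ n := by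
  rw [expect_eq_weighted, expect_eq_weighted]
  exact Real.pow_arith_mean_le_arith_mean_pow s _ f
    (fun _ _ => by positivity) (weights_sum_one hs) hf n

/-- Jensen for the exponential. -/
lemma exp_expect_le (hs : s.Nonempty) (f : ι → ℝ) :
    Real.exp (𝔼 i ∈ s, f i) ≤ 𝔼 i ∈ s, Real.exp (f i) := by
  rw [expect_eq_weighted, expect_eq_weighted]
  have := convexOn_exp.map_sum_le (t := s) (w := fun _ => (s.card : ℝ)⁻¹) (p := f)
    (fun _ _ => by positivity) (weights_sum_one hs) (fun _ _ => Set.mem_univ _)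
  simpa [smul_eq_mul] using this

/-- Average over a subset is at most the average over everything divided by the density. -/
lemma expect_finset_le_univ [Fintype ι] (hs : s.Nonempty) (f : ι → ℝ) (hf : ∀ i, 0 ≤ f i) :
    𝔼 i ∈ s, f i ≤ ((s.card : ℝ) / Fintype.card ι)⁻¹ * 𝔼 i, f i := by
  have hc : (0 : ℝ) < s.card := by exact_mod_cast hs.card_pos
  obtain ⟨i0, _⟩ := hs
  have hN : (0 : ℝ) < Fintype.card ι := by
    exact_mod_cast Fintype.card_pos_iff.mpr ⟨i0⟩
  rw [Finset.expect_eq_sum_div_card, Finset.expect_eq_sum_div_card, Finset.card_univ]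
  have h1 : ∑ i ∈ s, f i ≤ ∑ i, f i :=
    Finset.sum_le_sum_of_subset_of_nonneg (Finset.subset_univ s) (fun i _ _ => hf i)
  rw [inv_div, div_mul_div_comm, mul_comm (Fintype.card ι : ℝ), mul_div_mul_right _ _ hN.ne']
  gcongr

end Jensen

section Corr

variable {V : Type*} [AddCommGroup V] [Fintype V]

/-- The correlation `x ↦ 𝔼 y, f y * g (y + x)`. -/
noncomputable def corr (f g : V → ℝ) (x : V) : ℝ := 𝔼 y, f y * g (y + x)

/-- The average of the product of the translates of `f` by a tuple. -/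
noncomputable def Phi {k : ℕ} (f : V → ℝ) (y : Fin k → V) : ℝ := 𝔼 x, ∏ i, f (y i + x)

/-- Moments of a correlation. -/
lemma expect_corr_pow (f g : V → ℝ) (k : ℕ) :
    𝔼 x, corr f g x ^ k = 𝔼 y : Fin k → V, Phi f y * Phi g y := by
  have h1 : ∀ x, corr f g x ^ k
      = 𝔼 y : Fin k → V, (∏ i, f (y i)) * ∏ i, g (y i + x) := by
    intro x
    rw [corr, expect_pow_univ]
    simp only [Finset.prod_mul_distrib]
  have h2 : 𝔼 x, corr f g x ^ k
      = 𝔼 y : Fin k → V, (∏ i, f (y i)) * Phi g y := by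
    simp only [h1]
    rw [Finset.expect_comm]
    simp only [Phi, Finset.mul_expect]
  have h3 : ∀ t : V, 𝔼 y : Fin k → V, (∏ i, f (y i)) * Phi g y
      = 𝔼 y : Fin k → V, (∏ i, f (y i + t)) * Phi g y := by
    intro t
    rw [← expect_tuple_add (fun y : Fin k → V => (∏ i, f (y i)) * Phi g y) t]
    refine Finset.expect_congr rfl (fun y _ => ?_)
    congr 1
    simp only [Phi]
    rw [← expect_add_left (fun x => ∏ i, g (y i + x)) t]
    simp only [add_assoc]
  rw [h2]
  calc 𝔼 y : Fin k → V, (∏ i, f (y i)) * Phi g y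
      = 𝔼 _t : V, 𝔼 y : Fin k → V, (∏ i, f (y i)) * Phi g y := by
        rw [Finset.expect_const Finset.univ_nonempty]
    _ = 𝔼 t : V, 𝔼 y : Fin k → V, (∏ i, f (y i + t)) * Phi g y :=
        Finset.expect_congr rfl (fun t _ => h3 t)
    _ = 𝔼 y : Fin k → V, Phi f y * Phi g y := by
        rw [Finset.expect_comm]
        simp only [Phi, Finset.expect_mul]

lemma expect_corr_self_pow_nonneg (f : V → ℝ) (k : ℕ) : 0 ≤ 𝔼 x, corr f f x ^ k := by
  rw [expect_corr_pow]
  exact Finset.expect_nonneg (fun y _ => mul_self_nonneg _)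

/-- Cauchy-Schwarz for moments of correlations. -/
lemma expect_corr_pow_sq_le (f g : V → ℝ) (k : ℕ) :
    (𝔼 x, corr f g x ^ k) ^ 2 ≤ (𝔼 x, corr f f x ^ k) * (𝔼 x, corr g g x ^ k) := by
  rw [expect_corr_pow, expect_corr_pow, expect_corr_pow]
  have := Finset.expect_mul_sq_le_sq_mul_sq (Finset.univ : Finset (Fin k → V))
    (fun y => Phi f y) (fun y => Phi g y)
  simpa only [sq] using this

/-- The weighted moment identity used for sifting. -/
lemma expect_weighted_corr_pow [Module (ZMod 2) V] (w f : V → ℝ) (k : ℕ) :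
    𝔼 x, w x * corr f f x ^ k
      = 𝔼 s : Fin k → V, 𝔼 y, 𝔼 z, w (y + z) * ((∏ i, f (s i + y)) * ∏ i, f (s i + z)) := by
  have hself : ∀ a : V, a + a = 0 := fun a => ZModModule.add_self a
  have h1 : ∀ x, w x * corr f f x ^ k
      = 𝔼 s : Fin k → V, w x * ((∏ i, f (s i)) * ∏ i, f (s i + x)) := by
    intro x
    rw [corr, expect_pow_univ, Finset.mul_expect]
    simp only [Finset.prod_mul_distrib]
  have h2 : ∀ x, w x * corr f f x ^ k
      = 𝔼 s : Fin k → V, 𝔼 y, w x * ((∏ i, f (s i + y)) * ∏ i, f (s i + y + x)) := by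
    intro x
    rw [h1, Finset.expect_comm]
    rw [← Finset.expect_const (s := (Finset.univ : Finset V)) Finset.univ_nonempty
      (𝔼 s : Fin k → V, w x * ((∏ i, f (s i)) * ∏ i, f (s i + x)))]
    refine Finset.expect_congr rfl (fun y _ => ?_)
    rw [← expect_tuple_add (fun s : Fin k → V => w x * ((∏ i, f (s i)) * ∏ i, f (s i + x))) y]
  simp only [h2]
  rw [Finset.expect_comm]
  refine Finset.expect_congr rfl (fun s _ => ?_)
  rw [Finset.expect_comm]
  refine Finset.expect_congr rfl (fun y _ => ?_)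
  rw [← expect_add_left (fun x => w x * ((∏ i, f (s i + y)) * ∏ i, f (s i + y + x))) y]
  refine Finset.expect_congr rfl (fun z _ => ?_)
  have : ∀ i, s i + y + (y + z) = s i + z := by
    intro i
    rw [add_assoc, ← add_assoc y y z, hself, zero_add]
  simp only [this]

end Corr

end Pool.Agent.H77.KM
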