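import Pool.Agent.H77.KM.Iterate

set_option autoImplicit false

open Finset Function Module
open scoped BigOperators

namespace Pool.Agent.H77.KM

universe u

variable {V : Type u} [AddCommGroup V] [Module (ZMod 2) V] [Fintype V]

lemma card_sf (W : Submodule (ZMod 2) V) : (sf W).card = 2 ^ finrank (ZMod 2) W := by
  classical
  have h1 : Fintype.card W = (sf W).card := by
    rw [← Finset.card_univ]
    refine Finset.card_bij (fun w _ => (w : V)) (fun w _ => mem_sf.mpr w.2)
      (fun w _ w' _ h => Subtype.ext h) (fun v hv => ?_)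
    exact ⟨⟨v, mem_sf.mp hv⟩, Finset.mem_univ _, rfl⟩
  rw [← h1, Module.card_eq_pow_finrank (K := ZMod 2) (V := W), ZMod.card]

/-- The indicator function of a set. -/
noncomputable def ind (A : Set V) (x : V) : ℝ := by
  classical exact if x ∈ A then 1 else 0

lemma ind_cases (A : Set V) (x : V) : ind A x = 0 ∨ ind A x = 1 := by
  classical
  unfold ind
  split_ifs <;> simp

lemma ind_of_mem {A : Set V} {x : V} (h : x ∈ A) : ind A x = 1 := by
  classical
  simp [ind, h]

lemma ind_of_notMem {A : Set V} {x : V} (h : x ∉ A) : ind A x = 0 := by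
  classical
  simp [ind, h]

/-- The density of `A` on a coset, as a quotient of cardinalities. -/
lemma avg_ind (A : Set V) [DecidablePred (· ∈ A)] (W : Submodule (ZMod 2) V) (x : V) :
    avg (sf W) (ind A) x = ((sf W).filter (fun w => x + w ∈ A)).card / (sf W).card := by
  classical
  unfold avg
  rw [Finset.expect_eq_sum_div_card]
  congr 1
  rw [Finset.card_filter]
  push_cast
  refine Finset.sum_congr rfl (fun w _ => ?_)
  by_cases h : x + w ∈ A
  · rw [ind_of_mem h, if_pos h]
  · rw [ind_of_notMem h, if_neg h]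

/-- Extending a subspace avoiding `C` by one dimension, inside a coset where `C` is sparse. -/
lemma extend_step (C : Set V) {W W' U : Submodule (ZMod 2) V} (hW' : W' ≤ W) {x : V} (hx : x ∈ W)
    (hU : U ≤ W') (hUC : ∀ u ∈ U, u ∉ C) {t : ℕ} (ht : finrank (ZMod 2) U = t)
    {δ : ℝ} (hsparse : avg (sf W') (ind C) x ≤ δ)
    (hbig : (δ * 2 ^ finrank (ZMod 2) W' + 1) * 2 ^ t < 2 ^ finrank (ZMod 2) W') :
    ∃ U' : Submodule (ZMod 2) V, U' ≤ W ∧ finrank (ZMod 2) U' = t + 1 ∧ ∀ u ∈ U', u ∉ C := by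
  classical
  have hself : ∀ x : V, x + x = 0 := fun x => ZModModule.add_self x
  set S : Finset V := (sf W').filter (fun w => x + w ∈ C) with hS
  have hScard : (S.card : ℝ) ≤ δ * 2 ^ finrank (ZMod 2) W' := by
    rw [avg_ind, card_sf] at hsparse
    rw [div_le_iff₀ (by positivity)] at hsparse
    push_cast at hsparse
    exact hsparse
  -- the bad set of `w`
  set bad : Finset V := ((insert x S) ×ˢ (sf U)).image (fun p => p.1 + p.2) with hbad
  have hbadcard : (bad.card : ℝ) < 2 ^ finrank (ZMod 2) W' := by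
    have h1 : bad.card ≤ (S.card + 1) * 2 ^ t := by
      calc bad.card ≤ ((insert x S) ×ˢ (sf U)).card := Finset.card_image_le
        _ = (insert x S).card * (sf U).card := Finset.card_product _ _
        _ ≤ (S.card + 1) * 2 ^ t := by
          rw [card_sf, ht]
          exact Nat.mul_le_mul_right _ (Finset.card_insert_le _ _)
    have h2 : (bad.card : ℝ) ≤ (S.card + 1) * 2 ^ t := by exact_mod_cast h1
    refine lt_of_le_of_lt h2 (lt_of_le_of_lt ?_ hbig)
    exact mul_le_mul_of_nonneg_right (by linarith) (by positivity)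
  obtain ⟨w, hw, hwbad⟩ : ∃ w ∈ sf W', w ∉ bad := by
    by_contra hcon
    push Not at hcon
    have h1 : sf W' ⊆ bad := fun w hw => hcon w hw
    have h2 := Finset.card_le_card h1
    rw [card_sf] at h2
    have h3 : (2 : ℝ) ^ finrank (ZMod 2) W' ≤ bad.card := by exact_mod_cast h2
    linarith
  rw [mem_sf] at hw
  set y : V := x + w with hy
  -- y + u is never zero and never in C
  have hyu : ∀ u ∈ U, y + u ∉ C ∧ y + u ≠ 0 := by
    intro u hu
    constructor
    · intro h
      apply hwbad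
      rw [hbad, Finset.mem_image]
      refine ⟨(w + u, u), ?_, ?_⟩
      · rw [Finset.mem_product]
        refine ⟨Finset.mem_insert_of_mem ?_, mem_sf.mpr hu⟩
        rw [hS, Finset.mem_filter, mem_sf]
        refine ⟨W'.add_mem hw (hU hu), ?_⟩
        rw [← add_assoc]
        exact h
      · show w + u + u = w
        rw [add_assoc, hself, add_zero]
    · intro h
      apply hwbad
      rw [hbad, Finset.mem_image]
      refine ⟨(x, u), ?_, ?_⟩
      · rw [Finset.mem_product]
        exact ⟨Finset.mem_insert_self _ _, mem_sf.mpr hu⟩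
      · show x + u = w
        have h1 : x + w + u + w = w := by rw [← hy, h, zero_add]
        have h2 : x + w + u + w = x + u + (w + w) := by abel
        rw [h2, hself, add_zero] at h1
        exact h1
  have hyU : y ∉ U := by
    intro h
    exact (hyu y h).2 (hself y)
  have hy0 : y ≠ 0 := by
    have := (hyu 0 U.zero_mem).2
    rwa [add_zero] at this
  refine ⟨U ⊔ Submodule.span (ZMod 2) {y}, ?_, ?_, ?_⟩
  · refine sup_le (le_trans hU hW') ?_
    rw [Submodule.span_singleton_le_iff_mem]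
    exact W.add_mem hx (hW' hw)
  · have h1 := Submodule.finrank_sup_add_finrank_inf_eq U (Submodule.span (ZMod 2) {y})
    have h2 : U ⊓ Submodule.span (ZMod 2) {y} = ⊥ := by
      rw [← disjoint_iff]
      rw [Submodule.disjoint_span_singleton' hy0]
      exact hyU
    rw [h2, finrank_bot, finrank_span_singleton hy0, ht] at h1
    omega
  · intro v hv
    rw [Submodule.mem_sup] at hv
    obtain ⟨u, hu, z, hz, rfl⟩ := hv
    rw [Submodule.mem_span_singleton] at hz
    obtain ⟨c, rfl⟩ := hz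
    have hc : ∀ c : ZMod 2, c = 0 ∨ c = 1 := by decide
    rcases hc c with rfl | rfl
    · rw [zero_smul, add_zero]; exact hUC u hu
    · rw [one_smul, add_comm]; exact (hyu u hu).1

/-- A set which is not dense in a subspace of dimension at least `d` is missed by a subspace of
dimension `d`. -/
lemma dense_or_missed (C : Set V) (hC : (0 : V) ∉ C) {d : ℕ} (W : Submodule (ZMod 2) V)
    (hW : d ≤ finrank (ZMod 2) W) (hsparse : avg (sf W) (ind C) 0 < (1 / 2) ^ d) :
    ∃ U : Submodule (ZMod 2) V, U ≤ W ∧ finrank (ZMod 2) U = d ∧ ∀ u ∈ U, u ∉ C := by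
  classical
  -- integrality gives a slightly better upper bound
  set n := finrank (ZMod 2) W with hn
  have hpow : (2 : ℝ) ^ n * (1 / 2) ^ d = 2 ^ (n - d) := by
    have : (2 : ℝ) ^ n = 2 ^ (n - d) * 2 ^ d := by rw [← pow_add]; congr 1; omega
    rw [this, mul_assoc, ← mul_pow]
    norm_num
  have hbetter : avg (sf W) (ind C) 0 ≤ (1 / 2) ^ d - (1 / 2) ^ n := by
    have h1 := hsparse
    rw [avg_ind, card_sf, ← hn] at h1 ⊢
    push_cast at h1 ⊢
    rw [div_lt_iff₀ (by positivity), mul_comm, hpow] at h1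
    have h2 : (((sf W).filter (fun w => 0 + w ∈ C)).card : ℝ) + 1 ≤ 2 ^ (n - d) := by
      exact_mod_cast h1
    have h3 : (1 / 2 : ℝ) ^ n * 2 ^ n = 1 := by rw [← mul_pow]; norm_num
    rw [div_le_iff₀ (by positivity), sub_mul, mul_comm ((1 / 2 : ℝ) ^ d), hpow, h3]
    linarith
  have key : ∀ t ≤ d, ∃ U : Submodule (ZMod 2) V, U ≤ W ∧ finrank (ZMod 2) U = t ∧
      ∀ u ∈ U, u ∉ C := by
    intro t
    induction t with
    | zero =>
      intro _
      refine ⟨⊥, bot_le, finrank_bot _ _, fun u hu => ?_⟩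
      rw [Submodule.mem_bot] at hu
      rw [hu]; exact hC
    | succ t ih =>
      intro ht
      obtain ⟨U, hUW, hUt, hUC⟩ := ih (by omega)
      refine extend_step C le_rfl W.zero_mem hUW hUC hUt hbetter ?_
      have h0 : (1 / 2 : ℝ) ^ n * 2 ^ n = 1 := by rw [← mul_pow]; norm_num
      rw [← hn, sub_mul, h0, sub_add_cancel]
      have h1 : (1 / 2 : ℝ) ^ d * 2 ^ n * 2 ^ t < 2 ^ n := by
        have h2 : (1 / 2 : ℝ) ^ d * 2 ^ t < 1 := by
          have h3 : (1 / 2 : ℝ) ^ d ≤ (1 / 2) ^ (t + 1) :=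
            pow_le_pow_of_le_one (by norm_num) (by norm_num) ht
          have h4 : (1 / 2 : ℝ) ^ (t + 1) * 2 ^ t = 1 / 2 := by
            rw [pow_succ, mul_right_comm, ← mul_pow]; norm_num
          have h5 : (1 / 2 : ℝ) ^ d * 2 ^ t ≤ (1 / 2) ^ (t + 1) * 2 ^ t :=
            mul_le_mul_of_nonneg_right h3 (by positivity)
          linarith
        have h6 : (0 : ℝ) < 2 ^ n := by positivity
        calc (1 / 2 : ℝ) ^ d * 2 ^ n * 2 ^ t = ((1 / 2 : ℝ) ^ d * 2 ^ t) * 2 ^ n := by ring
          _ < 1 * 2 ^ n := mul_lt_mul_of_pos_right h2 h6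
          _ = 2 ^ n := one_mul _
      exact h1
  exact key d le_rfl

/-- The chain argument: if `A` and `B` are dense in every subspace of dimension at least `d`
and `A + B` misses `C`, then in every large subspace there is a subspace of dimension `j ≤ d`
missing `C`. -/
lemma chain (A B C : Set V) (hC : (0 : V) ∉ C) (habc : ∀ x ∈ A, ∀ y ∈ B, x + y ∉ C) {d : ℕ}
    (hd : 1 ≤ d)
    (hA : ∀ W : Submodule (ZMod 2) V, d ≤ finrank (ZMod 2) W →
      (1 / 2 : ℝ) ^ d ≤ avg (sf W) (ind A) 0)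
    (hB : ∀ W : Submodule (ZMod 2) V, d ≤ finrank (ZMod 2) W →
      (1 / 2 : ℝ) ^ d ≤ avg (sf W) (ind B) 0) (j : ℕ) (hj : j ≤ d) :
    ∀ W : Submodule (ZMod 2) V, d + j * (27 * d * stepDim d) ≤ finrank (ZMod 2) W →
      ∃ U : Submodule (ZMod 2) V, U ≤ W ∧ finrank (ZMod 2) U = j ∧ ∀ u ∈ U, u ∉ C := by
  classical
  induction j with
  | zero =>
    intro W _
    refine ⟨⊥, bot_le, finrank_bot _ _, fun u hu => ?_⟩
    rw [Submodule.mem_bot] at hu
    rw [hu]; exact hC
  | succ j ih =>
    intro W hW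
    have hsum : (j + 1) * (27 * d * stepDim d) = j * (27 * d * stepDim d) + 27 * d * stepDim d := by
      ring
    rw [hsum] at hW
    have hdW : d ≤ finrank (ZMod 2) W := by omega
    have ea : ∀ A : Set V, 𝔼 w : W, ind A (w : V) = avg (sf W) (ind A) 0 := by
      intro A
      rw [← expect_sf_eq W (fun w => ind A w)]
      unfold avg
      simp only [zero_add]
    obtain ⟨W', hW', z, hz⟩ := sparse_coset (V := W) d hd (fun w => ind A (w : V))
      (fun w => ind B (w : V)) (fun w => ind C (w : V)) (fun w => ind_cases A w)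
      (fun w => ind_cases B w) (fun w => ind_cases C w)
      (fun x y => by
        by_cases h1 : (x : V) ∈ A
        · by_cases h2 : (y : V) ∈ B
          · have := habc x h1 y h2
            rw [← Submodule.coe_add] at this
            rw [ind_of_notMem this, mul_zero]
          · rw [ind_of_notMem h2, mul_zero, zero_mul]
        · rw [ind_of_notMem h1, zero_mul, zero_mul])
      (by rw [ea]; exact hA W hdW) (by rw [ea]; exact hB W hdW)
    set W'' : Submodule (ZMod 2) V := W'.map W.subtype with hW''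
    have hle : W'' ≤ W := Submodule.map_subtype_le W W'
    have hrank : finrank (ZMod 2) W'' = finrank (ZMod 2) W' :=
      Submodule.finrank_map_subtype_eq W W'
    obtain ⟨U, hUW, hUj, hUC⟩ := ih (by omega) W'' (by omega)
    have hz' : avg (sf W'') (ind C) (z : V) ≤ (1 / 2) ^ (d + 1) := by
      have : avg (sf W'') (ind C) (z : V) = avg (sf W') (fun w : W => ind C (w : V)) z := by
        unfold avg
        rw [hW'', expect_sf_map W W' (fun w => ind C ((z : V) + w))]
        rfl
      rw [this]; exact hz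
    refine extend_step C hle z.2 hUW hUC hUj hz' ?_
    set n := finrank (ZMod 2) W'' with hn
    have hnd : d ≤ n := by omega
    have h1 : (1 / 2 : ℝ) ^ (d + 1) * 2 ^ j ≤ 1 / 4 := by
      have h3 : (1 / 2 : ℝ) ^ (d + 1) ≤ (1 / 2) ^ (j + 1 + 1) :=
        pow_le_pow_of_le_one (by norm_num) (by norm_num) (by omega)
      have h4 : (1 / 2 : ℝ) ^ (j + 1 + 1) * 2 ^ j = 1 / 4 := by
        have h6 : (1 / 2 : ℝ) ^ j * 2 ^ j = 1 := by rw [← mul_pow]; norm_num
        calc (1 / 2 : ℝ) ^ (j + 1 + 1) * 2 ^ j = 1 / 4 * ((1 / 2 : ℝ) ^ j * 2 ^ j) := by ring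
          _ = 1 / 4 := by rw [h6, mul_one]
      have h5 : (1 / 2 : ℝ) ^ (d + 1) * 2 ^ j ≤ (1 / 2) ^ (j + 1 + 1) * 2 ^ j :=
        mul_le_mul_of_nonneg_right h3 (by positivity)
      linarith
    have h2 : (2 : ℝ) ^ j ≤ 1 / 2 * 2 ^ n := by
      have h3 : (2 : ℝ) ^ (j + 1) ≤ 2 ^ n := pow_le_pow_right₀ (by norm_num) (by omega)
      rw [pow_succ] at h3
      linarith
    have h6 : (0 : ℝ) < 2 ^ n := by positivity
    calc ((1 / 2 : ℝ) ^ (d + 1) * 2 ^ n + 1) * 2 ^ j
        = ((1 / 2 : ℝ) ^ (d + 1) * 2 ^ j) * 2 ^ n + 2 ^ j := by ring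
      _ ≤ 1 / 4 * 2 ^ n + 1 / 2 * 2 ^ n :=
        add_le_add (mul_le_mul_of_nonneg_right h1 h6.le) h2
      _ < 2 ^ n := by linarith

/-- The Erdos-Hajnal type statement for three sets. -/
theorem three_sets (A B C : Set V) (hA : (0 : V) ∉ A) (hB : (0 : V) ∉ B) (hC : (0 : V) ∉ C)
    (habc : ∀ x ∈ A, ∀ y ∈ B, x + y ∉ C) {d : ℕ} (hd : 1 ≤ d)
    (hn : 6 * 10 ^ 18 * d ^ 10 ≤ finrank (ZMod 2) V) :
    ∃ U : Submodule (ZMod 2) V, finrank (ZMod 2) U = d ∧
      ((∀ u ∈ U, u ∉ A) ∨ (∀ u ∈ U, u ∉ B) ∨ (∀ u ∈ U, u ∉ C)) := by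
  by_cases h1 : ∀ W : Submodule (ZMod 2) V, d ≤ finrank (ZMod 2) W →
      (1 / 2 : ℝ) ^ d ≤ avg (sf W) (ind A) 0
  · by_cases h2 : ∀ W : Submodule (ZMod 2) V, d ≤ finrank (ZMod 2) W →
        (1 / 2 : ℝ) ^ d ≤ avg (sf W) (ind B) 0
    · have hs := stepDim_le d hd
      have hbound : d + d * (27 * d * stepDim d) ≤ finrank (ZMod 2) (⊤ : Submodule (ZMod 2) V) := by
        rw [finrank_top]
        refine le_trans ?_ hn
        calc d + d * (27 * d * stepDim d)
            ≤ d ^ 10 + d * (27 * d * (12582920 * 339 ^ 4 * d ^ 8)) := by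
              refine Nat.add_le_add ?_ ?_
              · exact Nat.le_self_pow (by norm_num) d
              · exact Nat.mul_le_mul_left _ (Nat.mul_le_mul_left _ hs)
          _ = (1 + 27 * 12582920 * 339 ^ 4) * d ^ 10 := by ring
          _ ≤ 6 * 10 ^ 18 * d ^ 10 := Nat.mul_le_mul_right _ (by norm_num)
      obtain ⟨U, _, hU, hUC⟩ := chain A B C hC habc hd h1 h2 d le_rfl ⊤ hbound
      exact ⟨U, hU, Or.inr (Or.inr hUC)⟩
    · push Not at h2
      obtain ⟨W, hW, hsp⟩ := h2
      obtain ⟨U, _, hU, hUB⟩ := dense_or_missed B hB W hW hsp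
      exact ⟨U, hU, Or.inr (Or.inl hUB)⟩
  · push Not at h1
    obtain ⟨W, hW, hsp⟩ := h1
    obtain ⟨U, _, hU, hUA⟩ := dense_or_missed A hA W hW hsp
    exact ⟨U, hU, Or.inl hUA⟩

end Pool.Agent.H77.KM
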