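import Pool.Agent.H77.KM.Fourier

set_option autoImplicit false

open Finset Function Module
open scoped BigOperators

namespace Pool.Agent.H77.KM

variable {V : Type*} [AddCommGroup V] [Module (ZMod 2) V] [Fintype V]

/-- Sums over nonempty subsets of an independent finite set are nonzero. -/
lemma sum_ne_zero_of_indep {E : Type*} [AddCommGroup E] [Module (ZMod 2) E]
    {B : Finset E} (hB : LinearIndepOn (ZMod 2) id (B : Set E))
    {I : Finset E} (hI : I ⊆ B) (hne : I.Nonempty) : ∑ i ∈ I, i ≠ 0 := by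
  classical
  intro h0
  have hB' := hB
  rw [linearIndepOn_finset_iff] at hB'
  have h1 := hB' (fun i => if i ∈ I then 1 else 0) (by
    simp only [id, ite_smul, one_smul, zero_smul]
    rw [Finset.sum_ite_mem, Finset.inter_eq_right.mpr hI]
    exact h0)
  obtain ⟨i, hi⟩ := hne
  have h2 := h1 i (hI hi)
  simp [hi] at h2

/-- The Riesz product identity for independent functionals. -/
lemma riesz {B : Finset (Dual (ZMod 2) V)}
    (hB : LinearIndepOn (ZMod 2) id (B : Set (Dual (ZMod 2) V)))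
    (c : ℝ) (s : Dual (ZMod 2) V → ℝ) :
    𝔼 x, ∏ φ ∈ B, (c + s φ * chi φ x) = c ^ B.card := by
  classical
  have h1 : ∀ x : V, ∏ φ ∈ B, (c + s φ * chi φ x)
      = ∑ t ∈ B.powerset, c ^ t.card * ((∏ φ ∈ B \ t, s φ) * chi (∑ φ ∈ B \ t, φ) x) := by
    intro x
    rw [Finset.prod_add]
    refine Finset.sum_congr rfl (fun t _ => ?_)
    rw [Finset.prod_const, Finset.prod_mul_distrib, prod_chi (B \ t) (fun φ => φ) x]
  simp only [h1]
  rw [Finset.expect_sum_comm]
  have h2 : ∀ t ∈ B.powerset, 𝔼 x : V, c ^ t.card * ((∏ φ ∈ B \ t, s φ) * chi (∑ φ ∈ B \ t, φ) x)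
      = if t = B then c ^ B.card else 0 := by
    intro t ht
    rw [Finset.mem_powerset] at ht
    rw [← Finset.mul_expect, ← Finset.mul_expect]
    split_ifs with h
    · rw [h]
      simp only [Finset.sdiff_self, Finset.prod_empty, Finset.sum_empty, chi_zero_left, one_mul]
      rw [Finset.expect_const Finset.univ_nonempty, mul_one]
    · have hne : (B \ t).Nonempty := by
        rw [Finset.sdiff_nonempty]
        intro hBt
        exact h (Finset.Subset.antisymm ht hBt)
      rw [expect_chi_eq_zero (sum_ne_zero_of_indep hB Finset.sdiff_subset hne), mul_zero, mul_zero]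
  rw [Finset.sum_congr rfl h2, Finset.sum_ite_eq' B.powerset B]
  simp

/-- Chang's bound for an independent set of large Fourier coefficients. -/
lemma chang_indep (T : Finset V) (hT : T.Nonempty) {K : ℕ}
    (hd : (1 / 2 : ℝ) ^ K ≤ (T.card : ℝ) / Fintype.card V)
    {B : Finset (Dual (ZMod 2) V)}
    (hB : LinearIndepOn (ZMod 2) id (B : Set (Dual (ZMod 2) V)))
    (hlarge : ∀ φ ∈ B, 1 / 2 ≤ |uhat T φ|) : B.card ≤ 8 * K := by
  classical
  set s : Dual (ZMod 2) V → ℝ := fun φ => if 0 ≤ uhat T φ then 1 else -1 with hs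
  have hs1 : ∀ φ, s φ * uhat T φ = |uhat T φ| := by
    intro φ
    simp only [hs]
    split_ifs with h
    · rw [abs_of_nonneg h, one_mul]
    · rw [abs_of_neg (not_le.mp h), neg_one_mul]
  have hs2 : ∀ φ, s φ = 1 ∨ s φ = -1 := by
    intro φ; simp only [hs]; split_ifs <;> simp
  set Y : V → ℝ := fun x => 1 / 2 * ∑ φ ∈ B, s φ * chi φ x with hY
  -- the exponential moment over the whole space
  have hexp : ∀ x, Real.exp (Y x)
      = ∏ φ ∈ B, (Real.cosh (1 / 2) + (s φ * Real.sinh (1 / 2)) * chi φ x) := by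
    intro x
    simp only [hY]
    rw [Finset.mul_sum, Real.exp_sum]
    refine Finset.prod_congr rfl (fun φ _ => ?_)
    have hc : chi φ x = 1 ∨ chi φ x = -1 := sgn_cases _
    have e1 : Real.exp (1 / 2) = Real.cosh (1 / 2) + Real.sinh (1 / 2) :=
      (Real.cosh_add_sinh _).symm
    have e2 : Real.exp (-(1 / 2)) = Real.cosh (1 / 2) - Real.sinh (1 / 2) :=
      (Real.cosh_sub_sinh _).symm
    rcases hs2 φ with h | h <;> rcases hc with h' | h' <;> rw [h, h']
    · rw [mul_one, mul_one, e1]; ring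
    · rw [one_mul, mul_neg_one, e2]; ring
    · rw [mul_one, mul_neg_one, e2]; ring
    · rw [neg_mul_neg, mul_one, mul_one, e1]; ring
  have hall : 𝔼 x, Real.exp (Y x) = Real.cosh (1 / 2) ^ B.card := by
    simp only [hexp]
    exact riesz hB _ _
  have hYT : 𝔼 x ∈ T, Y x = 1 / 2 * ∑ φ ∈ B, |uhat T φ| := by
    simp only [hY]
    rw [← Finset.mul_expect, Finset.expect_sum_comm]
    congr 1
    refine Finset.sum_congr rfl (fun φ _ => ?_)
    rw [← Finset.mul_expect, ← hs1 φ]
    rfl
  have hlow : (B.card : ℝ) / 4 ≤ 𝔼 x ∈ T, Y x := by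
    rw [hYT]
    have : (B.card : ℝ) * (1 / 2) ≤ ∑ φ ∈ B, |uhat T φ| := by
      rw [← nsmul_eq_mul]
      exact Finset.card_nsmul_le_sum _ _ _ hlarge
    linarith
  have h1 : Real.exp ((B.card : ℝ) / 4) ≤ (2 : ℝ) ^ K * Real.exp ((B.card : ℝ) * (1 / 8)) := by
    calc Real.exp ((B.card : ℝ) / 4) ≤ Real.exp (𝔼 x ∈ T, Y x) := Real.exp_le_exp.mpr hlow
      _ ≤ 𝔼 x ∈ T, Real.exp (Y x) := exp_expect_le hT _
      _ ≤ ((T.card : ℝ) / Fintype.card V)⁻¹ * 𝔼 x, Real.exp (Y x) :=
          expect_finset_le_univ hT _ (fun x => (Real.exp_pos _).le)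
      _ ≤ (2 : ℝ) ^ K * Real.exp ((B.card : ℝ) * (1 / 8)) := by
          rw [hall]
          refine mul_le_mul ?_ ?_ (by positivity) (by positivity)
          · have := inv_anti₀ (by positivity) hd
            refine le_trans this (le_of_eq ?_)
            rw [one_div, inv_pow, inv_inv]
          · rw [Real.exp_nat_mul]
            refine pow_le_pow_left₀ (by positivity) ?_ _
            refine le_trans (Real.cosh_le_exp_half_sq _) (le_of_eq ?_)
            congr 1
            norm_num
  have h2 : (2 : ℝ) ^ K ≤ Real.exp K := by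
    have : (2 : ℝ) ≤ Real.exp 1 := by linarith [Real.exp_one_gt_d9]
    calc (2 : ℝ) ^ K ≤ Real.exp 1 ^ K := pow_le_pow_left₀ (by norm_num) this K
      _ = Real.exp K := by rw [← Real.exp_nat_mul, mul_one]
  have h3 : Real.exp ((B.card : ℝ) / 4) ≤ Real.exp (K + (B.card : ℝ) * (1 / 8)) := by
    rw [Real.exp_add]
    exact le_trans h1 (mul_le_mul_of_nonneg_right h2 (Real.exp_pos _).le)
  have h4 := Real.exp_le_exp.mp h3
  have h5 : (B.card : ℝ) ≤ 8 * K := by linarith
  exact_mod_cast h5

/-- Chang's theorem: the large spectrum is contained in a subspace of small dimension. -/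
lemma chang (T : Finset V) (hT : T.Nonempty) {K : ℕ}
    (hd : (1 / 2 : ℝ) ^ K ≤ (T.card : ℝ) / Fintype.card V) :
    ∃ W : Submodule (ZMod 2) (Dual (ZMod 2) V), finrank (ZMod 2) W ≤ 8 * K ∧
      ∀ φ, 1 / 2 ≤ |uhat T φ| → φ ∈ W := by
  classical
  obtain ⟨b, hb, hspan, hind⟩ := exists_linearIndependent (ZMod 2)
    {φ : Dual (ZMod 2) V | 1 / 2 ≤ |uhat T φ|}
  have : Finite (Dual (ZMod 2) V) := Finite.of_injective (fun φ => (φ : V → ZMod 2))
    DFunLike.coe_injective
  letI : Fintype b := Fintype.ofFinite _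
  refine ⟨Submodule.span (ZMod 2) b, ?_, ?_⟩
  · rw [finrank_span_set_eq_card hind]
    refine chang_indep T hT hd (B := b.toFinset) ?_ ?_
    · rw [Set.coe_toFinset]; exact hind
    · intro φ hφ
      rw [Set.mem_toFinset] at hφ
      exact hb hφ
  · intro φ hφ
    rw [hspan]
    exact Submodule.subset_span hφ

end Pool.Agent.H77.KM
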