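import Pool.Agent.H77.KM.Moment

set_option autoImplicit false

open Finset Function
open scoped BigOperators

namespace Pool.Agent.H77.KM

variable {V : Type*} [AddCommGroup V]

/-- The averaging operator over translates by elements of `S`. -/
noncomputable def avg (S : Finset V) (F : V → ℝ) (x : V) : ℝ := 𝔼 a ∈ S, F (x + a)

lemma avg_sub (S : Finset V) (F G : V → ℝ) : avg S (F - G) = avg S F - avg S G := by
  ext x
  simp only [avg, Pi.sub_apply]
  rw [Finset.expect_sub_distrib]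

lemma avg_nonneg (S : Finset V) {F : V → ℝ} (hF : ∀ x, 0 ≤ F x) (x : V) : 0 ≤ avg S F x :=
  Finset.expect_nonneg (fun _ _ => hF _)

lemma avg_le (S : Finset V) (hS : S.Nonempty) {F : V → ℝ} {c : ℝ} (hF : ∀ x, F x ≤ c) (x : V) :
    avg S F x ≤ c :=
  Finset.expect_le hS (fun _ _ => hF _)

variable [Fintype V]

/-- The averaging operator is a contraction in every even moment norm. -/
lemma expect_avg_pow_le (S : Finset V) (hS : S.Nonempty) (F : V → ℝ) {n : ℕ} (hn : Even n) :
    𝔼 x, avg S F x ^ n ≤ 𝔼 x, F x ^ n := by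
  calc 𝔼 x, avg S F x ^ n ≤ 𝔼 x, 𝔼 a ∈ S, F (x + a) ^ n :=
        Finset.expect_le_expect (fun x _ => expect_pow_even_le hS _ hn)
    _ = 𝔼 a ∈ S, 𝔼 x, F (x + a) ^ n := Finset.expect_comm _ _ _
    _ = 𝔼 _a ∈ S, 𝔼 x, F x ^ n :=
        Finset.expect_congr rfl (fun a _ => expect_add_right (fun x => F x ^ n) a)
    _ = 𝔼 x, F x ^ n := Finset.expect_const hS _

/-- Croot-Sisask almost periodicity in even moments, in characteristic two. -/
lemma croot_sisask [Module (ZMod 2) V] [DecidableEq V] (A : Finset V) (hA : A.Nonempty)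
    (g : V → ℝ) (hg0 : ∀ x, 0 ≤ g x) (hg1 : ∀ x, g x ≤ 1) {ρ M : ℕ} (hρ : 0 < ρ) (hM : 0 < M) :
    ∃ T : Finset V, T.Nonempty ∧
      ((A.card : ℝ) / Fintype.card V) ^ M / 2 ≤ (T.card : ℝ) / Fintype.card V ∧
      ∀ t ∈ T, ∀ t' ∈ T,
        𝔼 x, (avg A g (x + (t + t')) - avg A g x) ^ (2 * ρ) ≤ (96 * ρ / M : ℝ) ^ ρ := by
  classical
  have hself : ∀ a : V, a + a = 0 := fun a => ZModModule.add_self a
  have hρ' : (0 : ℝ) < ρ := by exact_mod_cast hρ
  have hM' : (0 : ℝ) < M := by exact_mod_cast hM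
  have heven : Even (2 * ρ) := even_two_mul ρ
  set f : V → ℝ := avg A g with hf
  have hf0 : ∀ x, 0 ≤ f x := fun x => avg_nonneg A hg0 x
  have hf1 : ∀ x, f x ≤ 1 := fun x => avg_le A hA hg1 x
  -- empirical averages
  set fp : (Fin M → V) → V → ℝ := fun p x => (∑ i, g (x + p i)) / M with hfp
  set E : (Fin M → V) → ℝ := fun p => 𝔼 x, (fp p x - f x) ^ (2 * ρ) with hE
  have hE0 : ∀ p, 0 ≤ E p := fun p => Finset.expect_nonneg (fun x _ => heven.pow_nonneg _)
  set E0 : ℝ := 2 * (6 * ρ / M) ^ ρ with hE0def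
  have hE0pos : 0 < E0 := by positivity
  set AM : Finset (Fin M → V) := Fintype.piFinset (fun _ : Fin M => A) with hAM
  have hAMne : AM.Nonempty := by
    obtain ⟨a, ha⟩ := hA
    exact ⟨fun _ => a, by simp [hAM, ha]⟩
  have hmean : 𝔼 p ∈ AM, E p ≤ E0 := by
    simp only [hE]
    rw [Finset.expect_comm]
    refine Finset.expect_le Finset.univ_nonempty (fun x _ => ?_)
    have h0 : 𝔼 a ∈ A, (g (x + a) - f x) = 0 := by
      rw [Finset.expect_sub_distrib, Finset.expect_const hA]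
      simp only [hf, avg, sub_self]
    have h1 : ∀ a ∈ A, |g (x + a) - f x| ≤ 1 := by
      intro a _
      rw [abs_le]
      constructor
      · linarith [hg0 (x + a), hf1 x]
      · linarith [hg1 (x + a), hf0 x]
    have hb := moment_bound hA (fun a => g (x + a) - f x) h0 h1 hρ hM
    have e1 : ∀ p : Fin M → V, (fp p x - f x) ^ (2 * ρ)
        = (∑ i, (g (x + p i) - f x)) ^ (2 * ρ) * ((M : ℝ)⁻¹) ^ (2 * ρ) := by
      intro p
      rw [← mul_pow]
      congr 1
      rw [Finset.sum_sub_distrib, Finset.sum_const, Finset.card_univ, Fintype.card_fin,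
        nsmul_eq_mul]
      simp only [hfp]
      field_simp
    simp only [e1]
    rw [← Finset.expect_mul]
    calc (𝔼 p ∈ AM, (∑ i, (g (x + p i) - f x)) ^ (2 * ρ)) * ((M : ℝ)⁻¹) ^ (2 * ρ)
        ≤ (2 * (6 * ρ * M) ^ ρ) * ((M : ℝ)⁻¹) ^ (2 * ρ) :=
          mul_le_mul_of_nonneg_right hb (by positivity)
      _ = E0 := by
          rw [hE0def, pow_mul, mul_assoc, ← mul_pow]
          congr 2
          field_simp
  -- Markov
  set L : Finset (Fin M → V) := AM.filter (fun p => E p ≤ 2 * E0) with hL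
  have hcard : (AM.card : ℝ) = (A.card : ℝ) ^ M := by
    rw [hAM, Fintype.card_piFinset_const, Nat.cast_pow]
  have hLcard : (A.card : ℝ) ^ M / 2 ≤ L.card := by
    have h1 : ∑ p ∈ AM, E p ≤ E0 * AM.card := by
      have hc : (0 : ℝ) < AM.card := by exact_mod_cast hAMne.card_pos
      rw [Finset.expect_eq_sum_div_card, div_le_iff₀ hc] at hmean
      exact hmean
    have h2 : 2 * E0 * ((AM.card : ℝ) - L.card) ≤ ∑ p ∈ AM, E p := by
      have h3 : ∑ p ∈ AM.filter (fun p => ¬ E p ≤ 2 * E0), E p ≤ ∑ p ∈ AM, E p :=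
        Finset.sum_le_sum_of_subset_of_nonneg (Finset.filter_subset _ _) (fun p _ _ => hE0 p)
      have h4 : ((AM.filter (fun p => ¬ E p ≤ 2 * E0)).card : ℝ) * (2 * E0)
          ≤ ∑ p ∈ AM.filter (fun p => ¬ E p ≤ 2 * E0), E p := by
        rw [← nsmul_eq_mul]
        refine Finset.card_nsmul_le_sum _ _ _ (fun p hp => ?_)
        rw [Finset.mem_filter] at hp
        exact (not_le.mp hp.2).le
      have h5 : (L.card : ℝ) + (AM.filter (fun p => ¬ E p ≤ 2 * E0)).card = AM.card := by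
        rw [hL]
        exact_mod_cast Finset.card_filter_add_card_filter_not (s := AM) (fun p => E p ≤ 2 * E0)
      have h6 : (AM.card : ℝ) - L.card = (AM.filter (fun p => ¬ E p ≤ 2 * E0)).card := by
        linarith
      rw [h6, mul_comm]
      exact le_trans h4 h3
    have h7 : 2 * E0 * ((AM.card : ℝ) - L.card) ≤ E0 * AM.card := le_trans h2 h1
    rw [← hcard]
    nlinarith
  -- pigeonhole
  have hN : (0 : ℝ) < Fintype.card V := by exact_mod_cast Fintype.card_pos
  have hpig : ((A.card : ℝ) / Fintype.card V) ^ M / 2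
      ≤ 𝔼 b : Fin M → V, 𝔼 t : V, (if (fun i => b i + t) ∈ L then (1 : ℝ) else 0) := by
    rw [Finset.expect_comm]
    have h1 : ∀ t : V, 𝔼 b : Fin M → V, (if (fun i => b i + t) ∈ L then (1 : ℝ) else 0)
        = 𝔼 b : Fin M → V, (if b ∈ L then (1 : ℝ) else 0) := fun t =>
      expect_tuple_add (fun b : Fin M → V => if b ∈ L then (1 : ℝ) else 0) t
    simp only [h1]
    rw [Finset.expect_const Finset.univ_nonempty, Finset.expect_eq_sum_div_card,
      Finset.card_univ]
    have h2 : ∑ b : Fin M → V, (if b ∈ L then (1 : ℝ) else 0) = L.card := by simp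
    rw [h2, Fintype.card_fun, Fintype.card_fin, div_pow, div_div, Nat.cast_pow,
      mul_comm _ (2 : ℝ), ← div_div]
    exact div_le_div_of_nonneg_right hLcard (by positivity)
  obtain ⟨b, _, hb⟩ := Finset.exists_le_of_le_expect Finset.univ_nonempty hpig
  set T : Finset V := Finset.univ.filter (fun t => (fun i => b i + t) ∈ L) with hT
  have hTd : 𝔼 t : V, (if (fun i => b i + t) ∈ L then (1 : ℝ) else 0)
      = (T.card : ℝ) / Fintype.card V := by
    rw [Finset.expect_eq_sum_div_card, Finset.card_univ]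
    congr 1
    rw [hT, Finset.card_filter]
    push_cast
    rfl
  rw [hTd] at hb
  have hAc : (0 : ℝ) < A.card := by exact_mod_cast hA.card_pos
  have hTne : T.Nonempty := by
    rw [Finset.nonempty_iff_ne_empty]
    intro h
    rw [h] at hb
    have : 0 < ((A.card : ℝ) / Fintype.card V) ^ M / 2 := by positivity
    simp at hb
    linarith
  refine ⟨T, hTne, hb, ?_⟩
  -- closeness of translates
  have hclose : ∀ t ∈ T, 𝔼 x, (fp b x - f (x + t)) ^ (2 * ρ) ≤ 2 * E0 := by
    intro t ht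
    rw [hT, Finset.mem_filter] at ht
    have h1 := ht.2
    rw [hL, Finset.mem_filter] at h1
    have h2 := h1.2
    simp only [hE] at h2
    rw [← expect_add_right (fun x => (fp (fun i => b i + t) x - f x) ^ (2 * ρ)) t] at h2
    refine le_trans (le_of_eq ?_) h2
    refine Finset.expect_congr rfl (fun x _ => ?_)
    congr 2
    simp only [hfp]
    congr 1
    refine Finset.sum_congr rfl (fun i _ => ?_)
    congr 1
    rw [add_assoc, add_comm (b i) t, ← add_assoc t t, hself, zero_add]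
  intro t ht t' ht'
  have h1 := hclose t ht
  have h2 := hclose t' ht'
  rw [← expect_add_right (fun x => (f (x + (t + t')) - f x) ^ (2 * ρ)) t']
  have e1 : ∀ x, x + t' + (t + t') = x + t := by
    intro x
    rw [add_assoc, add_comm t t', ← add_assoc t' t', hself, zero_add]
  simp only [e1]
  calc 𝔼 x, (f (x + t) - f (x + t')) ^ (2 * ρ)
      ≤ 𝔼 x, 2 ^ (2 * ρ - 1) * ((f (x + t) - fp b x) ^ (2 * ρ)
          + (fp b x - f (x + t')) ^ (2 * ρ)) := by
        refine Finset.expect_le_expect (fun x _ => ?_)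
        have := heven.add_pow_le (a := f (x + t) - fp b x) (b := fp b x - f (x + t'))
        rwa [sub_add_sub_cancel] at this
    _ = 2 ^ (2 * ρ - 1) * ((𝔼 x, (fp b x - f (x + t)) ^ (2 * ρ))
          + 𝔼 x, (fp b x - f (x + t')) ^ (2 * ρ)) := by
        rw [← Finset.mul_expect, Finset.expect_add_distrib]
        congr 2
        refine Finset.expect_congr rfl (fun x _ => ?_)
        rw [← neg_sub, heven.neg_pow]
    _ ≤ 2 ^ (2 * ρ - 1) * (2 * E0 + 2 * E0) := by
        refine mul_le_mul_of_nonneg_left (add_le_add h1 h2) (by positivity)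
    _ = 4 * (24 * ρ / M) ^ ρ := by
        have e2 : (2 : ℝ) ^ (2 * ρ - 1) * 2 = 4 ^ ρ := by
          rw [← pow_succ, Nat.sub_add_cancel (by omega), pow_mul]; norm_num
        have e3 : (24 * ρ / M : ℝ) ^ ρ = 4 ^ ρ * (6 * ρ / M) ^ ρ := by
          rw [← mul_pow]; congr 1; ring
        rw [e3, ← e2, hE0def]
        ring
    _ ≤ (96 * ρ / M) ^ ρ := by
        have e4 : (96 * ρ / M : ℝ) ^ ρ = 4 ^ ρ * (24 * ρ / M) ^ ρ := by
          rw [← mul_pow]; congr 1; ring
        rw [e4]
        refine mul_le_mul_of_nonneg_right ?_ (by positivity)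
        calc (4 : ℝ) = 4 ^ 1 := by norm_num
          _ ≤ 4 ^ ρ := pow_le_pow_right₀ (by norm_num) hρ

/-- The double averaging operator. -/
noncomputable def avg2 (T : Finset V) (F : V → ℝ) : V → ℝ := avg T (avg T F)

lemma avg2_sub (T : Finset V) (F G : V → ℝ) : avg2 T (F - G) = avg2 T F - avg2 T G := by
  unfold avg2
  rw [avg_sub, avg_sub]

lemma avg2_iter_sub (T : Finset V) (F G : V → ℝ) (j : ℕ) :
    (avg2 T)^[j] (F - G) = (avg2 T)^[j] F - (avg2 T)^[j] G := by
  induction j generalizing F G with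
  | zero => rfl
  | succ j ih => rw [iterate_succ_apply, iterate_succ_apply, iterate_succ_apply, avg2_sub, ih]

lemma expect_avg2_iter_pow_le (T : Finset V) (hT : T.Nonempty) (F : V → ℝ) {n : ℕ}
    (hn : Even n) (j : ℕ) : 𝔼 x, ((avg2 T)^[j] F) x ^ n ≤ 𝔼 x, F x ^ n := by
  induction j generalizing F with
  | zero => exact le_rfl
  | succ j ih =>
    rw [iterate_succ_apply]
    exact le_trans (ih _) (le_trans (expect_avg_pow_le T hT _ hn) (expect_avg_pow_le T hT _ hn))

/-- Iterating the double averaging operator `k` times moves `f` by at most `k` times the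
one-step bound. -/
lemma expect_avg2_iter_sub_pow_le (T : Finset V) (hT : T.Nonempty) (f : V → ℝ) {ρ : ℕ}
    {E1 : ℝ} (hE1 : ∀ t ∈ T, ∀ t' ∈ T, 𝔼 x, (f (x + (t + t')) - f x) ^ (2 * ρ) ≤ E1)
    {k : ℕ} (hk : 0 < k) :
    𝔼 x, (((avg2 T)^[k] f) x - f x) ^ (2 * ρ) ≤ (k : ℝ) ^ (2 * ρ) * E1 := by
  have heven : Even (2 * ρ) := even_two_mul ρ
  have hone : 𝔼 x, (avg2 T f - f) x ^ (2 * ρ) ≤ E1 := by
    have e1 : ∀ x, (avg2 T f - f) x = 𝔼 a ∈ T, 𝔼 b ∈ T, (f (x + (a + b)) - f x) := by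
      intro x
      simp only [avg2, avg, Pi.sub_apply]
      have : ∀ a ∈ T, 𝔼 b ∈ T, (f (x + (a + b)) - f x) = (𝔼 b ∈ T, f (x + a + b)) - f x := by
        intro a _
        rw [Finset.expect_sub_distrib, Finset.expect_const hT]
        simp only [add_assoc]
      rw [Finset.expect_congr rfl this, Finset.expect_sub_distrib, Finset.expect_const hT]
    calc 𝔼 x, (avg2 T f - f) x ^ (2 * ρ)
        = 𝔼 x, (𝔼 a ∈ T, 𝔼 b ∈ T, (f (x + (a + b)) - f x)) ^ (2 * ρ) :=
          Finset.expect_congr rfl (fun x _ => by rw [e1])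
      _ ≤ 𝔼 x, 𝔼 a ∈ T, 𝔼 b ∈ T, (f (x + (a + b)) - f x) ^ (2 * ρ) := by
          refine Finset.expect_le_expect (fun x _ => ?_)
          refine le_trans (expect_pow_even_le hT _ heven) ?_
          exact Finset.expect_le_expect (fun a _ => expect_pow_even_le hT _ heven)
      _ = 𝔼 a ∈ T, 𝔼 b ∈ T, 𝔼 x, (f (x + (a + b)) - f x) ^ (2 * ρ) := by
          rw [Finset.expect_comm]
          exact Finset.expect_congr rfl (fun a _ => Finset.expect_comm _ _ _)
      _ ≤ E1 := Finset.expect_le hT (fun a ha => Finset.expect_le hT (fun b hb => hE1 a ha b hb))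
  have hkne : (Finset.range k).Nonempty := Finset.nonempty_range_iff.mpr hk.ne'
  have hk' : (0 : ℝ) < k := by exact_mod_cast hk
  have tele : ∀ x, ((avg2 T)^[k] f) x - f x
      = k * 𝔼 j ∈ Finset.range k, ((avg2 T)^[j] (avg2 T f - f)) x := by
    intro x
    rw [Finset.expect_eq_sum_div_card, Finset.card_range, mul_div_cancel₀ _ hk'.ne']
    have h1 : ∀ j, ((avg2 T)^[j] (avg2 T f - f)) x
        = ((avg2 T)^[j + 1] f) x - ((avg2 T)^[j] f) x := by
      intro j
      rw [avg2_iter_sub, iterate_succ_apply]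
      rfl
    simp only [h1]
    rw [Finset.sum_range_sub (fun j => ((avg2 T)^[j] f) x) k]
    rfl
  calc 𝔼 x, (((avg2 T)^[k] f) x - f x) ^ (2 * ρ)
      = 𝔼 x, (k : ℝ) ^ (2 * ρ)
          * (𝔼 j ∈ Finset.range k, ((avg2 T)^[j] (avg2 T f - f)) x) ^ (2 * ρ) :=
        Finset.expect_congr rfl (fun x _ => by rw [tele, mul_pow])
    _ ≤ 𝔼 x, (k : ℝ) ^ (2 * ρ)
          * 𝔼 j ∈ Finset.range k, ((avg2 T)^[j] (avg2 T f - f)) x ^ (2 * ρ) :=
        Finset.expect_le_expect (fun x _ =>
          mul_le_mul_of_nonneg_left (expect_pow_even_le hkne _ heven) (by positivity))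
    _ = (k : ℝ) ^ (2 * ρ)
          * 𝔼 j ∈ Finset.range k, 𝔼 x, ((avg2 T)^[j] (avg2 T f - f)) x ^ (2 * ρ) := by
        rw [← Finset.mul_expect, Finset.expect_comm]
    _ ≤ (k : ℝ) ^ (2 * ρ) * E1 := by
        refine mul_le_mul_of_nonneg_left ?_ (by positivity)
        exact Finset.expect_le hkne (fun j _ =>
          le_trans (expect_avg2_iter_pow_le T hT _ heven j) hone)

/-- The combined almost periodicity statement, tested on the set `A` itself. -/
lemma almost_periodic [Module (ZMod 2) V] [DecidableEq V] (A : Finset V) (hA : A.Nonempty)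
    (g : V → ℝ) (hg0 : ∀ x, 0 ≤ g x) (hg1 : ∀ x, g x ≤ 1) {L : ℕ} (hL : 0 < L)
    (hAd : (1 / 2 : ℝ) ^ L ≤ (A.card : ℝ) / Fintype.card V) :
    ∃ T : Finset V, T.Nonempty ∧
      ((A.card : ℝ) / Fintype.card V) ^ (1572864 * L ^ 3) / 2 ≤ (T.card : ℝ) / Fintype.card V ∧
      |𝔼 x ∈ A, (((avg2 T)^[L] (avg A g)) x - avg A g x)| ≤ 1 / 64 := by
  have hM : 0 < 1572864 * L ^ 3 := by positivity
  obtain ⟨T, hT, hTd, hclose⟩ := croot_sisask A hA g hg0 hg1 hL hM
  refine ⟨T, hT, hTd, ?_⟩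
  have hL' : (0 : ℝ) < L := by exact_mod_cast hL
  have heven : Even (2 * L) := even_two_mul L
  have h1 := expect_avg2_iter_sub_pow_le T hT (avg A g) hclose hL
  set D : V → ℝ := fun x => ((avg2 T)^[L] (avg A g)) x - avg A g x with hD
  have h2 : (𝔼 x ∈ A, D x) ^ (2 * L) ≤ (1 / 64 : ℝ) ^ (2 * L) := by
    calc (𝔼 x ∈ A, D x) ^ (2 * L) ≤ 𝔼 x ∈ A, D x ^ (2 * L) := expect_pow_even_le hA _ heven
      _ ≤ ((A.card : ℝ) / Fintype.card V)⁻¹ * 𝔼 x, D x ^ (2 * L) :=
          expect_finset_le_univ hA _ (fun x => heven.pow_nonneg _)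
      _ ≤ (2 : ℝ) ^ L * ((L : ℝ) ^ (2 * L) * (96 * L / (1572864 * L ^ 3 : ℕ)) ^ L) := by
          refine mul_le_mul ?_ h1 (Finset.expect_nonneg (fun x _ => heven.pow_nonneg _))
            (by positivity)
          have := inv_anti₀ (by positivity) hAd
          refine le_trans this (le_of_eq ?_)
          rw [one_div, inv_pow, inv_inv]
      _ = (2 * (L ^ 2) * (96 * L / (1572864 * L ^ 3))) ^ L := by
          rw [mul_pow, mul_pow, ← pow_mul]
          push_cast
          ring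
      _ ≤ ((1 / 64 : ℝ) ^ 2) ^ L := by
          refine pow_le_pow_left₀ (by positivity) ?_ L
          have : 2 * (L : ℝ) ^ 2 * (96 * L / (1572864 * L ^ 3)) = 1 / 8192 := by
            field_simp
            norm_num
          rw [this]
          norm_num
      _ = (1 / 64 : ℝ) ^ (2 * L) := by rw [← pow_mul]
  rw [← heven.pow_abs] at h2
  exact (pow_le_pow_iff_left₀ (abs_nonneg _) (by norm_num) (by omega)).mp h2

end Pool.Agent.H77.KM
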