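import Pool.Agent.H77.KM.CrootSisask

set_option autoImplicit false

open Finset Function Module
open scoped BigOperators

namespace Pool.Agent.H77.KM

/-- The sign character of `ZMod 2`. -/
noncomputable def sgn (a : ZMod 2) : ℝ := if a = 0 then 1 else -1

lemma sgn_zero : sgn 0 = 1 := by simp [sgn]

lemma sgn_add (a b : ZMod 2) : sgn (a + b) = sgn a * sgn b := by
  have h : ∀ c : ZMod 2, c = 0 ∨ c = 1 := by decide
  have h11 : (1 : ZMod 2) + 1 = 0 := by decide
  rcases h a with rfl | rfl <;> rcases h b with rfl | rfl <;> simp [sgn, h11]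

lemma sgn_sq (a : ZMod 2) : sgn a * sgn a = 1 := by
  unfold sgn; split_ifs <;> norm_num

lemma abs_sgn (a : ZMod 2) : |sgn a| = 1 := by
  unfold sgn; split_ifs <;> norm_num

lemma sgn_cases (a : ZMod 2) : sgn a = 1 ∨ sgn a = -1 := by
  unfold sgn; split_ifs <;> simp

variable {V : Type*} [AddCommGroup V] [Module (ZMod 2) V]

/-- The real character attached to a linear functional. -/
noncomputable def chi (φ : Dual (ZMod 2) V) (x : V) : ℝ := sgn (φ x)

lemma chi_add (φ : Dual (ZMod 2) V) (x y : V) : chi φ (x + y) = chi φ x * chi φ y := by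
  simp only [chi, map_add, sgn_add]

lemma chi_add_left (φ ψ : Dual (ZMod 2) V) (x : V) : chi (φ + ψ) x = chi φ x * chi ψ x := by
  simp only [chi, LinearMap.add_apply, sgn_add]

lemma chi_zero (φ : Dual (ZMod 2) V) : chi φ 0 = 1 := by simp [chi, sgn_zero]

lemma chi_zero_left (x : V) : chi (0 : Dual (ZMod 2) V) x = 1 := by simp [chi, sgn_zero]

lemma chi_sq (φ : Dual (ZMod 2) V) (x : V) : chi φ x * chi φ x = 1 := sgn_sq _

lemma abs_chi (φ : Dual (ZMod 2) V) (x : V) : |chi φ x| = 1 := abs_sgn _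

lemma prod_chi {ι : Type*} (I : Finset ι) (φ : ι → Dual (ZMod 2) V) (x : V) :
    ∏ i ∈ I, chi (φ i) x = chi (∑ i ∈ I, φ i) x := by
  classical
  induction I using Finset.induction_on with
  | empty => simp [chi_zero_left]
  | insert i I hi ih => rw [Finset.prod_insert hi, Finset.sum_insert hi, chi_add_left, ih]

lemma expect_chi_eq_zero [Fintype V] {φ : Dual (ZMod 2) V} (hφ : φ ≠ 0) :
    𝔼 x, chi φ x = 0 := by
  obtain ⟨x0, hx0⟩ : ∃ x, φ x ≠ 0 := by
    by_contra h
    push Not at h
    exact hφ (LinearMap.ext h)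
  have h1 : chi φ x0 = -1 := by simp [chi, sgn, hx0]
  have h2 : 𝔼 x, chi φ x = 𝔼 x, chi φ (x + x0) := (expect_add_right _ x0).symm
  simp only [chi_add, h1, mul_neg_one] at h2
  rw [Finset.expect_neg_distrib] at h2
  linarith

lemma expect_chi [Fintype V] (φ : Dual (ZMod 2) V) :
    𝔼 x, chi φ x = 1 ∨ 𝔼 x, chi φ x = 0 := by
  by_cases h : φ = 0
  · left
    simp only [h, chi_zero_left]
    exact Finset.expect_const Finset.univ_nonempty _
  · exact Or.inr (expect_chi_eq_zero h)

section Dual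

variable [Fintype V] [Fintype (Dual (ZMod 2) V)]

lemma card_dual : Fintype.card (Dual (ZMod 2) V) = Fintype.card V := by
  rw [Module.card_eq_pow_finrank (K := ZMod 2) (V := V),
    Module.card_eq_pow_finrank (K := ZMod 2) (V := Dual (ZMod 2) V), Subspace.dual_finrank_eq]

lemma sum_chi_eq_zero {x : V} (hx : x ≠ 0) : ∑ φ : Dual (ZMod 2) V, chi φ x = 0 := by
  obtain ⟨ψ, hψ⟩ : ∃ ψ : Dual (ZMod 2) V, ψ x ≠ 0 := by
    by_contra h
    push Not at h
    exact hx ((Module.forall_dual_apply_eq_zero_iff (ZMod 2) x).mp h)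
  have h1 : chi ψ x = -1 := by simp [chi, sgn, hψ]
  have h2 : ∑ φ : Dual (ZMod 2) V, chi φ x = ∑ φ : Dual (ZMod 2) V, chi (φ + ψ) x :=
    (Fintype.sum_equiv (Equiv.addRight ψ) _ _ (fun _ => rfl)).symm
  simp only [chi_add_left, h1, mul_neg_one, Finset.sum_neg_distrib] at h2
  linarith

lemma sum_chi_zero : ∑ φ : Dual (ZMod 2) V, chi φ (0 : V) = Fintype.card V := by
  simp only [chi_zero, Finset.sum_const, Finset.card_univ, card_dual, nsmul_eq_mul, mul_one]

end Dual

/-- The Fourier transform. -/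
noncomputable def hat [Fintype V] (F : V → ℝ) (φ : Dual (ZMod 2) V) : ℝ := 𝔼 x, F x * chi φ x

/-- The Fourier coefficient of the uniform measure on `S`. -/
noncomputable def uhat (S : Finset V) (φ : Dual (ZMod 2) V) : ℝ := 𝔼 a ∈ S, chi φ a

lemma hat_avg [Fintype V] (S : Finset V) (F : V → ℝ) (φ : Dual (ZMod 2) V) :
    hat (avg S F) φ = uhat S φ * hat F φ := by
  have h1 : hat (avg S F) φ = 𝔼 a ∈ S, 𝔼 x, F (x + a) * chi φ x := by
    unfold hat avg
    rw [Finset.expect_comm]
    simp only [Finset.expect_mul]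
  have h2 : ∀ a ∈ S, 𝔼 x, F (x + a) * chi φ x = chi φ a * hat F φ := by
    intro a _
    have h3 : ∀ x, F (x + a) * chi φ x = chi φ a * (F (x + a) * chi φ (x + a)) := by
      intro x
      rw [chi_add]
      calc F (x + a) * chi φ x = F (x + a) * chi φ x * (chi φ a * chi φ a) := by
            rw [chi_sq, mul_one]
        _ = _ := by ring
    simp only [h3]
    rw [← Finset.mul_expect, expect_add_right (fun x => F x * chi φ x) a]
    rfl
  rw [h1, Finset.expect_congr rfl h2, ← Finset.expect_mul]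
  rfl

lemma hat_avg2_iter [Fintype V] (T : Finset V) (F : V → ℝ) (φ : Dual (ZMod 2) V) (k : ℕ) :
    hat ((avg2 T)^[k] F) φ = uhat T φ ^ (2 * k) * hat F φ := by
  induction k generalizing F with
  | zero => simp
  | succ k ih =>
    rw [iterate_succ_apply, ih, avg2, hat_avg, hat_avg]
    ring

lemma abs_uhat_le (S : Finset V) (hS : S.Nonempty) (φ : Dual (ZMod 2) V) : |uhat S φ| ≤ 1 := by
  refine le_trans (Finset.abs_expect_le _ _) ?_
  exact Finset.expect_le hS (fun a _ => (abs_chi φ a).le)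

lemma abs_hat_le [Fintype V] {F : V → ℝ} (h0 : ∀ x, 0 ≤ F x) (h1 : ∀ x, F x ≤ 1)
    (φ : Dual (ZMod 2) V) : |hat F φ| ≤ 1 := by
  refine le_trans (Finset.abs_expect_le _ _) ?_
  refine Finset.expect_le Finset.univ_nonempty (fun x _ => ?_)
  rw [abs_mul, abs_chi, mul_one, abs_of_nonneg (h0 x)]
  exact h1 x

section Inversion

variable [Fintype V] [Fintype (Dual (ZMod 2) V)]

lemma inversion (F : V → ℝ) (x : V) : ∑ φ, hat F φ * chi φ x = F x := by
  classical
  have hself : ∀ a : V, a + a = 0 := fun a => ZModModule.add_self a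
  have hN : (Fintype.card V : ℝ) ≠ 0 := by exact_mod_cast Fintype.card_ne_zero
  have h1 : ∀ φ : Dual (ZMod 2) V, hat F φ * chi φ x
      = (∑ y, F y * chi φ (y + x)) / Fintype.card V := by
    intro φ
    unfold hat
    rw [Finset.expect_eq_sum_div_card, Finset.card_univ, div_mul_eq_mul_div, Finset.sum_mul]
    congr 1
    refine Finset.sum_congr rfl (fun y _ => ?_)
    rw [chi_add, mul_assoc]
  simp only [h1]
  rw [← Finset.sum_div, Finset.sum_comm]
  have h2 : ∀ y, ∑ φ : Dual (ZMod 2) V, F y * chi φ (y + x)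
      = if y = x then F x * Fintype.card V else 0 := by
    intro y
    rw [← Finset.mul_sum]
    split_ifs with h
    · rw [h, hself, sum_chi_zero]
    · rw [sum_chi_eq_zero, mul_zero]
      intro h0
      apply h
      have : y + x + x = x := by rw [h0, zero_add]
      rwa [add_assoc, hself, add_zero] at this
  simp only [h2]
  rw [Finset.sum_ite_eq' Finset.univ x]
  simp only [Finset.mem_univ, if_true]
  field_simp

lemma expect_finset_eq_sum_hat (S : Finset V) (F : V → ℝ) :
    𝔼 x ∈ S, F x = ∑ φ, hat F φ * uhat S φ := by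
  have h1 : ∀ x ∈ S, F x = ∑ φ, hat F φ * chi φ x := fun x _ => (inversion F x).symm
  rw [Finset.expect_congr rfl h1, Finset.expect_sum_comm]
  refine Finset.sum_congr rfl (fun φ _ => ?_)
  rw [← Finset.mul_expect]
  rfl

lemma parseval (S : Finset V) (hS : S.Nonempty) :
    ∑ φ : Dual (ZMod 2) V, uhat S φ ^ 2 = ((S.card : ℝ) / Fintype.card V)⁻¹ := by
  classical
  have hself : ∀ a : V, a + a = 0 := fun a => ZModModule.add_self a
  have hc : (S.card : ℝ) ≠ 0 := by exact_mod_cast hS.card_ne_zero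
  have h1 : ∀ φ : Dual (ZMod 2) V, uhat S φ ^ 2 = 𝔼 a ∈ S, 𝔼 b ∈ S, chi φ (a + b) := by
    intro φ
    unfold uhat
    rw [sq, Finset.expect_mul_expect]
    refine Finset.expect_congr rfl (fun a _ => Finset.expect_congr rfl (fun b _ => ?_))
    rw [chi_add]
  simp only [h1]
  rw [← Finset.expect_sum_comm]
  have h2 : ∀ a ∈ S, ∑ φ : Dual (ZMod 2) V, 𝔼 b ∈ S, chi φ (a + b)
      = (Fintype.card V : ℝ) / S.card := by
    intro a ha
    rw [← Finset.expect_sum_comm]
    have h3 : ∀ b ∈ S, ∑ φ : Dual (ZMod 2) V, chi φ (a + b)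
        = if b = a then (Fintype.card V : ℝ) else 0 := by
      intro b _
      split_ifs with h
      · rw [h, hself, sum_chi_zero]
      · rw [sum_chi_eq_zero]
        intro h0
        apply h
        have : a + (a + b) = a := by rw [h0, add_zero]
        rwa [← add_assoc, hself, zero_add] at this
    rw [Finset.expect_congr rfl h3, Finset.expect_eq_sum_div_card, Finset.sum_ite_eq' S a]
    simp only [ha, if_true]
  rw [Finset.expect_congr rfl h2, Finset.expect_const hS, inv_div]

end Inversion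

end Pool.Agent.H77.KM
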