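import Pool.Agent.H77.KM.Basic

set_option autoImplicit false

open Finset Function
open scoped BigOperators

namespace Pool.Agent.H77.KM

/-- Average over a subset in terms of the average over everything. -/
lemma expect_finset_eq {V : Type*} [Fintype V] [DecidableEq V] (s : Finset V) (f : V → ℝ)
    (hs : s.Nonempty) :
    ((s.card : ℝ) / Fintype.card V) * 𝔼 i ∈ s, f i = 𝔼 i, (if i ∈ s then 1 else 0) * f i := by
  obtain ⟨i0, hi0⟩ := hs
  have hc : (s.card : ℝ) ≠ 0 := by
    exact_mod_cast (Finset.card_pos.mpr ⟨i0, hi0⟩).ne'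
  have hN : (Fintype.card V : ℝ) ≠ 0 := by
    exact_mod_cast (Fintype.card_pos_iff.mpr ⟨i0⟩).ne'
  rw [Finset.expect_eq_sum_div_card, Finset.expect_eq_sum_div_card, Finset.card_univ]
  have h1 : ∑ i, (if i ∈ s then (1 : ℝ) else 0) * f i = ∑ i ∈ s, f i := by
    simp only [ite_mul, one_mul, zero_mul]
    rw [Finset.sum_ite_mem, Finset.univ_inter]
  rw [h1]
  field_simp

lemma num_sift {m : ℕ} (hm : 47 ≤ m) :
    (1 / 2 : ℝ) + 64 * (9 / 8) ^ m < (5 / 4) ^ m := by
  have h1 : (65 : ℝ) ≤ (10 / 9) ^ m := by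
    calc (65 : ℝ) ≤ (10 / 9) ^ 47 := by norm_num
      _ ≤ (10 / 9) ^ m := pow_le_pow_right₀ (by norm_num) hm
  have h2 : (5 / 4 : ℝ) ^ m = (10 / 9) ^ m * (9 / 8) ^ m := by
    rw [← mul_pow]; norm_num
  have h3 : (1 : ℝ) ≤ (9 / 8) ^ m := one_le_pow₀ (by norm_num)
  rw [h2]
  nlinarith

/-- Sifting (dependent random choice): from a large moment of the correlation of a set with
itself one gets a fairly dense set almost all of whose pairwise sums have large correlation. -/
lemma sift {V : Type*} [AddCommGroup V] [Module (ZMod 2) V] [Fintype V] [DecidableEq V]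
    (a : V → ℝ) (ha : ∀ x, a x = 0 ∨ a x = 1) (hα : 0 < 𝔼 x, a x) {m : ℕ} (hm : 47 ≤ m)
    (hbig : ((5 / 4 : ℝ) * (𝔼 x, a x) ^ 2) ^ m ≤ 𝔼 x, corr a a x ^ m) :
    ∃ A : Finset V, A.Nonempty ∧ (𝔼 x, a x) ^ m / 2 ≤ (A.card : ℝ) / Fintype.card V ∧
      𝔼 y ∈ A, 𝔼 z ∈ A, (if corr a a (y + z) < 9 / 8 * (𝔼 x, a x) ^ 2 then (1 : ℝ) else 0)
        ≤ 1 / 64 := by
  classical
  set α : ℝ := 𝔼 x, a x with hαdef
  have ha0 : ∀ x, 0 ≤ a x := fun x => by rcases ha x with h | h <;> rw [h] <;> norm_num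
  have hc0 : ∀ x, 0 ≤ corr a a x := fun x =>
    Finset.expect_nonneg (fun y _ => mul_nonneg (ha0 _) (ha0 _))
  set w : V → ℝ := fun x => if corr a a x < 9 / 8 * α ^ 2 then 1 else 0 with hw
  have hw0 : ∀ x, 0 ≤ w x := fun x => by simp only [hw]; split_ifs <;> norm_num
  set u : (Fin m → V) → V → ℝ := fun s y => ∏ i, a (s i + y) with hu
  have hu01 : ∀ s y, u s y = 0 ∨ u s y = 1 := by
    intro s y
    simp only [hu]
    by_cases h : ∃ i, a (s i + y) = 0
    · left
      obtain ⟨i, hi⟩ := h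
      exact Finset.prod_eq_zero (Finset.mem_univ i) hi
    · right
      push Not at h
      refine Finset.prod_eq_one (fun i _ => ?_)
      rcases ha (s i + y) with h' | h'
      · exact absurd h' (h i)
      · exact h'
  have hu0 : ∀ s y, 0 ≤ u s y := fun s y => by rcases hu01 s y with h | h <;> rw [h] <;> norm_num
  set μ : (Fin m → V) → ℝ := fun s => 𝔼 y, u s y with hμ
  set G : (Fin m → V) → ℝ := fun s => 𝔼 y, 𝔼 z, w (y + z) * (u s y * u s z) with hG
  have hG0 : ∀ s, 0 ≤ G s := fun s =>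
    Finset.expect_nonneg (fun y _ => Finset.expect_nonneg
      (fun z _ => mul_nonneg (hw0 _) (mul_nonneg (hu0 _ _) (hu0 _ _))))
  have hμ0 : ∀ s, 0 ≤ μ s := fun s => Finset.expect_nonneg (fun y _ => hu0 _ _)
  -- first moment
  have E1 : 𝔼 s, μ s = α ^ m := by
    simp only [hμ]
    rw [Finset.expect_comm]
    have : ∀ y : V, 𝔼 s : Fin m → V, u s y = α ^ m := by
      intro y
      simp only [hu]
      rw [expect_tuple_add (fun s : Fin m → V => ∏ i, a (s i)) y, ← expect_pow_univ]
    simp only [this]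
    exact Finset.expect_const Finset.univ_nonempty _
  -- second moment
  have E2 : 𝔼 s, μ s ^ 2 = 𝔼 x, corr a a x ^ m := by
    have h := expect_weighted_corr_pow (fun _ : V => (1 : ℝ)) a m
    simp only [one_mul] at h
    rw [h]
    refine Finset.expect_congr rfl (fun s _ => ?_)
    simp only [hμ, sq, hu]
    rw [Finset.expect_mul_expect]
  have E3 : 𝔼 s, G s ≤ (9 / 8 * α ^ 2) ^ m := by
    have h := expect_weighted_corr_pow w a m
    have h' : 𝔼 s, G s = 𝔼 x, w x * corr a a x ^ m := by rw [h]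
    rw [h']
    refine Finset.expect_le Finset.univ_nonempty (fun x _ => ?_)
    simp only [hw]
    split_ifs with hx
    · rw [one_mul]
      exact pow_le_pow_left₀ (hc0 x) hx.le m
    · rw [zero_mul]; positivity
  have hpos : 0 < 𝔼 s, (μ s ^ 2 - α ^ m / 2 * μ s - 64 * G s) := by
    rw [Finset.expect_sub_distrib, Finset.expect_sub_distrib, ← Finset.mul_expect,
      ← Finset.mul_expect, E1, E2]
    have h1 := num_sift hm
    have h2 : (9 / 8 * α ^ 2) ^ m = (9 / 8) ^ m * (α ^ m * α ^ m) := by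
      rw [mul_pow, ← pow_mul, ← pow_add, two_mul]
    have h3 : (5 / 4 * α ^ 2) ^ m = (5 / 4) ^ m * (α ^ m * α ^ m) := by
      rw [mul_pow, ← pow_mul, ← pow_add, two_mul]
    rw [h3] at hbig
    rw [h2] at E3
    have h4 : 0 < α ^ m * α ^ m := by positivity
    have h5 : ((1 / 2 : ℝ) + 64 * (9 / 8) ^ m) * (α ^ m * α ^ m)
        < (5 / 4) ^ m * (α ^ m * α ^ m) := mul_lt_mul_of_pos_right h1 h4
    nlinarith
  obtain ⟨s, _, hs⟩ := Finset.exists_lt_of_lt_expect Finset.univ_nonempty hpos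
  have hμpos : 0 < μ s := by
    rcases (hμ0 s).eq_or_lt with h | h
    · rw [← h] at hs
      have := hG0 s
      nlinarith
    · exact h
  have hμθ : α ^ m / 2 < μ s := by
    have h1 : 0 < (μ s - α ^ m / 2) * μ s := by
      have := hG0 s
      nlinarith
    have := (mul_pos_iff_of_pos_right hμpos).mp h1
    linarith
  set A : Finset V := Finset.univ.filter (fun y => u s y = 1) with hA
  have hind : ∀ y, (if y ∈ A then (1 : ℝ) else 0) = u s y := by
    intro y
    rcases hu01 s y with h | h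
    · simp [hA, h]
    · simp [hA, h]
  have hμA : μ s = (A.card : ℝ) / Fintype.card V := by
    simp only [hμ]
    rw [Finset.expect_eq_sum_div_card, Finset.card_univ]
    congr 1
    simp only [← hind]
    simp
  have hAne : A.Nonempty := by
    rw [Finset.nonempty_iff_ne_empty]
    intro h
    rw [hμA, h] at hμpos
    simp at hμpos
  refine ⟨A, hAne, by rw [← hμA]; exact hμθ.le, ?_⟩
  have hGs : (μ s * μ s) * (𝔼 y ∈ A, 𝔼 z ∈ A, w (y + z)) = G s := by
    rw [hμA, mul_assoc, expect_finset_eq A _ hAne, Finset.mul_expect]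
    simp only [hG]
    refine Finset.expect_congr rfl (fun y _ => ?_)
    rw [mul_left_comm, expect_finset_eq A _ hAne, Finset.mul_expect, hind]
    refine Finset.expect_congr rfl (fun z _ => ?_)
    rw [hind]; ring
  have hfin : 𝔼 y ∈ A, 𝔼 z ∈ A, w (y + z) ≤ 1 / 64 := by
    have h1 : 64 * G s < μ s ^ 2 := by
      have : 0 ≤ α ^ m / 2 * μ s := by positivity
      linarith
    rw [← hGs] at h1
    have h2 : 0 < μ s * μ s := by positivity
    by_contra hcon
    push Not at hcon
    nlinarith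
  exact hfin

end Pool.Agent.H77.KM
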