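import Pool.Agent.H77.KM.Chang
import Pool.Agent.H77.KM.Unbalance
import Pool.Agent.H77.KM.Sift

set_option autoImplicit false

open Finset Function Module
open scoped BigOperators

namespace Pool.Agent.H77.KM

variable {V : Type*} [AddCommGroup V] [Module (ZMod 2) V] [Fintype V]

/-- The finite set of elements of a subspace. -/
noncomputable def sf (W : Submodule (ZMod 2) V) : Finset V := by
  classical exact Finset.univ.filter (fun x => x ∈ W)

lemma mem_sf {W : Submodule (ZMod 2) V} {x : V} : x ∈ sf W ↔ x ∈ W := by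
  classical
  simp [sf]

lemma sf_nonempty (W : Submodule (ZMod 2) V) : (sf W).Nonempty :=
  ⟨0, mem_sf.mpr W.zero_mem⟩

lemma expect_sf_add (W : Submodule (ZMod 2) V) (F : V → ℝ) {w0 : V} (hw0 : w0 ∈ W) :
    𝔼 w ∈ sf W, F (w + w0) = 𝔼 w ∈ sf W, F w := by
  refine Finset.expect_equiv (Equiv.addRight w0) (fun w => ?_) (fun w _ => rfl)
  rw [mem_sf, mem_sf]
  exact ⟨fun h => W.add_mem h hw0, fun h => (W.add_mem_iff_left hw0).mp h⟩

lemma uhat_sf_of_vanish (W : Submodule (ZMod 2) V) (φ : Dual (ZMod 2) V)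
    (h : ∀ w ∈ W, φ w = 0) : uhat (sf W) φ = 1 := by
  unfold uhat
  have : ∀ w ∈ sf W, chi φ w = 1 := fun w hw => by
    rw [chi, h w (mem_sf.mp hw), sgn_zero]
  rw [Finset.expect_congr rfl this, Finset.expect_const (sf_nonempty W)]

lemma uhat_sf_cases (W : Submodule (ZMod 2) V) (φ : Dual (ZMod 2) V) :
    uhat (sf W) φ = 1 ∨ uhat (sf W) φ = 0 := by
  by_cases h : ∀ w ∈ W, φ w = 0
  · exact Or.inl (uhat_sf_of_vanish W φ h)
  · right
    push Not at h
    obtain ⟨w0, hw0, hne⟩ := h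
    have h1 : chi φ w0 = -1 := by simp [chi, sgn, hne]
    have h2 := expect_sf_add W (chi φ) hw0
    simp only [chi_add, h1, mul_neg_one] at h2
    rw [Finset.expect_neg_distrib] at h2
    unfold uhat
    linarith

lemma avg2_iter_le (T : Finset V) (hT : T.Nonempty) (j : ℕ) {F : V → ℝ} {c : ℝ}
    (hF : ∀ x, F x ≤ c) (x : V) : ((avg2 T)^[j] F) x ≤ c := by
  induction j generalizing F x with
  | zero => exact hF x
  | succ j ih =>
    rw [iterate_succ_apply]
    exact ih (fun y => avg_le T hT (fun z => avg_le T hT hF z) y) x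

lemma expect_avg (S : Finset V) (hS : S.Nonempty) (F : V → ℝ) :
    𝔼 x, avg S F x = 𝔼 x, F x := by
  unfold avg
  rw [Finset.expect_comm, Finset.expect_congr rfl (fun a _ => expect_add_right F a),
    Finset.expect_const hS]

/-- If `g` is almost `1` on `A + A`, then `g` is almost `1` on a coset of a subspace of small
codimension. -/
lemma coset_structure (A : Finset V) (hA : A.Nonempty) (g : V → ℝ) (hg0 : ∀ x, 0 ≤ g x)
    (hg1 : ∀ x, g x ≤ 1) {L : ℕ} (hL : 6 ≤ L)
    (hAd : (1 / 2 : ℝ) ^ L ≤ (A.card : ℝ) / Fintype.card V)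
    (hbig : 63 / 64 ≤ 𝔼 x ∈ A, avg A g x) :
    ∃ W : Submodule (ZMod 2) V,
      finrank (ZMod 2) V ≤ finrank (ZMod 2) W + 12582920 * L ^ 4 ∧
      ∃ x0, 15 / 16 ≤ avg (sf W) g x0 := by
  classical
  have hFin : Finite (Dual (ZMod 2) V) := Finite.of_injective (fun φ => (φ : V → ZMod 2))
    DFunLike.coe_injective
  let instF : Fintype (Dual (ZMod 2) V) := Fintype.ofFinite _
  obtain ⟨T, hT, hTd, hTap⟩ := almost_periodic A hA g hg0 hg1 (by omega : 0 < L) hAd
  set K : ℕ := L * (1572864 * L ^ 3) + 1 with hK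
  have hTK : (1 / 2 : ℝ) ^ K ≤ (T.card : ℝ) / Fintype.card V := by
    refine le_trans ?_ hTd
    have : ((1 / 2 : ℝ) ^ L) ^ (1572864 * L ^ 3)
        ≤ ((A.card : ℝ) / Fintype.card V) ^ (1572864 * L ^ 3) :=
      pow_le_pow_left₀ (by positivity) hAd _
    rw [hK, pow_succ, pow_mul]
    linarith
  obtain ⟨Φ, hΦ, hspec⟩ := chang T hT hTK
  set W : Submodule (ZMod 2) V := Φ.dualCoannihilator with hW
  have hcodim : finrank (ZMod 2) V ≤ finrank (ZMod 2) W + 12582920 * L ^ 4 := by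
    have h1 := Subspace.finrank_add_finrank_dualCoannihilator_eq Φ
    have h2 : 8 * K ≤ 12582920 * L ^ 4 := by
      have h3 : 1 ≤ L ^ 4 := Nat.one_le_pow _ _ (by omega)
      have h4 : L * (1572864 * L ^ 3) = 1572864 * L ^ 4 := by ring
      rw [hK, h4]
      omega
    rw [← hW] at h1
    omega
  refine ⟨W, hcodim, ?_⟩
  set gW : V → ℝ := avg (sf W) g with hgW
  set P : ℝ := 𝔼 x ∈ A, ((avg2 T)^[L] (avg A g)) x with hP
  set Q : ℝ := 𝔼 x ∈ A, ((avg2 T)^[L] (avg A gW)) x with hQ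
  have hPlow : 62 / 64 ≤ P := by
    have h1 := (abs_le.mp hTap).1
    rw [Finset.expect_sub_distrib] at h1
    rw [hP]
    linarith
  -- Fourier expansion of the difference
  have hPQ : P - Q = ∑ φ : Dual (ZMod 2) V,
      uhat T φ ^ (2 * L) * (uhat A φ ^ 2 * (hat g φ * (1 - uhat (sf W) φ))) := by
    rw [hP, hQ, expect_finset_eq_sum_hat, expect_finset_eq_sum_hat, ← Finset.sum_sub_distrib]
    refine Finset.sum_congr rfl (fun φ _ => ?_)
    rw [hat_avg2_iter, hat_avg2_iter, hat_avg, hat_avg, hgW, hat_avg]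
    ring
  have hdiff : |P - Q| ≤ 1 / 64 := by
    rw [hPQ]
    refine le_trans (Finset.abs_sum_le_sum_abs _ _) ?_
    have hterm : ∀ φ : Dual (ZMod 2) V,
        |uhat T φ ^ (2 * L) * (uhat A φ ^ 2 * (hat g φ * (1 - uhat (sf W) φ)))|
          ≤ (1 / 4) ^ L * uhat A φ ^ 2 := by
      intro φ
      by_cases hφ : φ ∈ Φ
      · have h1 : uhat (sf W) φ = 1 := by
          refine uhat_sf_of_vanish W φ (fun w hw => ?_)
          rw [hW, Submodule.mem_dualCoannihilator] at hw
          exact hw φ hφ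
        rw [h1]
        simp only [sub_self, mul_zero, abs_zero]
        positivity
      · have h2 : |uhat T φ| ≤ 1 / 2 := by
          by_contra hcon
          exact hφ (hspec φ (not_le.mp hcon).le)
        have h3 : |uhat T φ ^ (2 * L)| ≤ (1 / 4) ^ L := by
          rw [abs_pow, pow_mul]
          refine pow_le_pow_left₀ (by positivity) ?_ L
          calc |uhat T φ| ^ 2 ≤ (1 / 2) ^ 2 := pow_le_pow_left₀ (abs_nonneg _) h2 2
            _ = 1 / 4 := by norm_num
        have h4 : |hat g φ * (1 - uhat (sf W) φ)| ≤ 1 := by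
          rw [abs_mul]
          have h5 := abs_hat_le hg0 hg1 φ
          have h6 : |1 - uhat (sf W) φ| ≤ 1 := by
            rcases uhat_sf_cases W φ with h | h <;> rw [h] <;> norm_num
          calc |hat g φ| * |1 - uhat (sf W) φ| ≤ 1 * 1 :=
                mul_le_mul h5 h6 (abs_nonneg _) (by norm_num)
            _ = 1 := by norm_num
        rw [abs_mul, abs_mul, abs_of_nonneg (sq_nonneg (uhat A φ))]
        refine mul_le_mul h3 ?_ (by positivity) (by positivity)
        exact mul_le_of_le_one_right (sq_nonneg _) h4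
    refine le_trans (Finset.sum_le_sum (fun φ _ => hterm φ)) ?_
    rw [← Finset.mul_sum, parseval A hA]
    have h1 : ((A.card : ℝ) / Fintype.card V)⁻¹ ≤ 2 ^ L := by
      have := inv_anti₀ (by positivity) hAd
      refine le_trans this (le_of_eq ?_)
      rw [one_div, inv_pow, inv_inv]
    calc (1 / 4 : ℝ) ^ L * ((A.card : ℝ) / Fintype.card V)⁻¹ ≤ (1 / 4) ^ L * 2 ^ L :=
          mul_le_mul_of_nonneg_left h1 (by positivity)
      _ = (1 / 2) ^ L := by rw [← mul_pow]; norm_num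
      _ ≤ (1 / 2) ^ 6 := pow_le_pow_of_le_one (by norm_num) (by norm_num) hL
      _ = 1 / 64 := by norm_num
  have hQlow : 61 / 64 ≤ Q := by
    have := (abs_le.mp hdiff).2
    linarith
  -- maximise
  obtain ⟨x0, hx0⟩ := Finite.exists_max gW
  refine ⟨x0, ?_⟩
  have hQup : Q ≤ gW x0 := by
    rw [hQ]
    exact Finset.expect_le hA (fun x _ =>
      avg2_iter_le T hT L (fun y => avg_le A hA hx0 y) x)
  linarith

/-- A large moment of the self-correlation of a set gives a density increment. -/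
lemma increment_of_moment (a : V → ℝ) (ha : ∀ x, a x = 0 ∨ a x = 1) {d m : ℕ} (hd : 1 ≤ d)
    (hm : 47 ≤ m) (hα : (1 / 2 : ℝ) ^ d ≤ 𝔼 x, a x)
    (hbig : ((5 / 4 : ℝ) * (𝔼 x, a x) ^ 2) ^ m ≤ 𝔼 x, corr a a x ^ m) :
    ∃ W : Submodule (ZMod 2) V,
      finrank (ZMod 2) V ≤ finrank (ZMod 2) W + 12582920 * (d * m + 1) ^ 4 ∧
      ∃ x0, 135 / 128 * (𝔼 x, a x) ≤ avg (sf W) a x0 := by
  classical
  have hαpos : 0 < 𝔼 x, a x := lt_of_lt_of_le (by positivity) hα
  obtain ⟨A, hA, hAd, hAs⟩ := sift a ha hαpos hm hbig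
  set α : ℝ := 𝔼 x, a x with hαdef
  set g : V → ℝ := fun x => 1 - (if corr a a x < 9 / 8 * α ^ 2 then (1 : ℝ) else 0) with hg
  have hg0 : ∀ x, 0 ≤ g x := fun x => by simp only [hg]; split_ifs <;> norm_num
  have hg1 : ∀ x, g x ≤ 1 := fun x => by simp only [hg]; split_ifs <;> norm_num
  have hL6 : 6 ≤ d * m + 1 := by nlinarith
  have hAd' : (1 / 2 : ℝ) ^ (d * m + 1) ≤ (A.card : ℝ) / Fintype.card V := by
    refine le_trans ?_ hAd
    have : ((1 / 2 : ℝ) ^ d) ^ m ≤ α ^ m := pow_le_pow_left₀ (by positivity) hα m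
    rw [pow_succ, pow_mul]
    linarith
  have hbig' : 63 / 64 ≤ 𝔼 x ∈ A, avg A g x := by
    have h1 : ∀ x ∈ A, avg A g x
        = 1 - 𝔼 z ∈ A, (if corr a a (x + z) < 9 / 8 * α ^ 2 then (1 : ℝ) else 0) := by
      intro x _
      simp only [avg, hg]
      rw [Finset.expect_sub_distrib, Finset.expect_const hA]
    rw [Finset.expect_congr rfl h1, Finset.expect_sub_distrib, Finset.expect_const hA]
    linarith
  obtain ⟨W, hW, x0, hx0⟩ := coset_structure A hA g hg0 hg1 hL6 hAd' hbig'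
  refine ⟨W, hW, ?_⟩
  have ha0 : ∀ x, 0 ≤ a x := fun x => by rcases ha x with h | h <;> rw [h] <;> norm_num
  have hc0 : ∀ x, 0 ≤ corr a a x := fun x =>
    Finset.expect_nonneg (fun y _ => mul_nonneg (ha0 _) (ha0 _))
  have hcg : ∀ x, 9 / 8 * α ^ 2 * g x ≤ corr a a x := by
    intro x
    simp only [hg]
    split_ifs with h
    · rw [sub_self, mul_zero]; exact hc0 x
    · rw [sub_zero, mul_one]; exact not_lt.mp h
  have h1 : 9 / 8 * α ^ 2 * (15 / 16) ≤ avg (sf W) (corr a a) x0 := by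
    calc 9 / 8 * α ^ 2 * (15 / 16) ≤ 9 / 8 * α ^ 2 * avg (sf W) g x0 :=
          mul_le_mul_of_nonneg_left hx0 (by positivity)
      _ = 𝔼 w ∈ sf W, 9 / 8 * α ^ 2 * g (x0 + w) := by
          rw [avg, Finset.mul_expect]
      _ ≤ avg (sf W) (corr a a) x0 := Finset.expect_le_expect (fun w _ => hcg _)
  obtain ⟨y0, hy0⟩ := Finite.exists_max (avg (sf W) a)
  refine ⟨y0, ?_⟩
  have h2 : avg (sf W) (corr a a) x0 ≤ α * avg (sf W) a y0 := by
    have h3 : avg (sf W) (corr a a) x0 = 𝔼 y, a y * avg (sf W) a (y + x0) := by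
      simp only [avg, corr]
      rw [Finset.expect_comm]
      refine Finset.expect_congr rfl (fun y _ => ?_)
      rw [Finset.mul_expect]
      simp only [add_assoc]
    rw [h3, hαdef, Finset.expect_mul]
    exact Finset.expect_le_expect (fun y _ => mul_le_mul_of_nonneg_left (hy0 _) (ha0 _))
  have h3 : 9 / 8 * α ^ 2 * (15 / 16) ≤ α * avg (sf W) a y0 := le_trans h1 h2
  have h4 : α * (135 / 128 * α) ≤ α * avg (sf W) a y0 := by
    refine le_trans (le_of_eq ?_) h3
    ring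
  exact le_of_mul_le_mul_left h4 hαpos

/-- The normalised correlation of a `0/1` function with itself, minus one. -/
lemma corr_normalised (a b : V → ℝ) (hα : (𝔼 x, a x) ≠ 0) (hβ : (𝔼 x, b x) ≠ 0) (x : V) :
    corr (fun y => a y / (𝔼 x, a x) - 1) (fun y => b y / (𝔼 x, b x) - 1) x
      = corr a b x / ((𝔼 x, a x) * (𝔼 x, b x)) - 1 := by
  set α := 𝔼 x, a x with hαd
  set β := 𝔼 x, b x with hβd
  unfold corr
  have h1 : ∀ y, (a y / α - 1) * (b (y + x) / β - 1)
      = (a y * b (y + x)) / (α * β) - a y / α - b (y + x) / β + 1 := by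
    intro y
    field_simp
    ring
  simp only [h1]
  rw [Finset.expect_add_distrib, Finset.expect_sub_distrib, Finset.expect_sub_distrib,
    Finset.expect_const Finset.univ_nonempty, ← Finset.expect_div, ← Finset.expect_div,
    ← Finset.expect_div, expect_add_right b x, ← hαd, ← hβd, div_self hα, div_self hβ]
  ring

lemma increment_of_even_moment (a : V → ℝ) (ha : ∀ x, a x = 0 ∨ a x = 1) {d : ℕ} (hd : 1 ≤ d)
    (hα : (1 / 2 : ℝ) ^ d ≤ 𝔼 x, a x)
    (hbig : (1 / 2 : ℝ) ^ (2 * d + 10) ≤ 𝔼 x, corr (fun y => a y / (𝔼 x, a x) - 1)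
      (fun y => a y / (𝔼 x, a x) - 1) x ^ (2 * d + 10)) :
    ∃ W : Submodule (ZMod 2) V,
      finrank (ZMod 2) V ≤ finrank (ZMod 2) W + 12582920 * (d * (26 * (2 * d + 11)) + 1) ^ 4 ∧
      ∃ x0, 135 / 128 * (𝔼 x, a x) ≤ avg (sf W) a x0 := by
  classical
  have hαpos : 0 < 𝔼 x, a x := lt_of_lt_of_le (by positivity) hα
  have ha0 : ∀ x, 0 ≤ a x := fun x => by rcases ha x with h | h <;> rw [h] <;> norm_num
  have hc0 : ∀ x, 0 ≤ corr a a x := fun x =>
    Finset.expect_nonneg (fun y _ => mul_nonneg (ha0 _) (ha0 _))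
  refine increment_of_moment a ha hd (by omega : 47 ≤ 26 * (2 * d + 11)) hα ?_
  set α : ℝ := 𝔼 x, a x with hαd
  set f : V → ℝ := fun y => a y / α - 1 with hf
  have hF : ∀ x, 1 + corr f f x = corr a a x / (α * α) := by
    intro x
    rw [hf, corr_normalised a a hαpos.ne' hαpos.ne']
    ring
  have h := unbalance (corr f f) (fun x => by rw [hF]; exact div_nonneg (hc0 x) (by positivity))
    (p := 2 * d + 10) (by exact ⟨d + 5, by ring⟩) (by omega)
    (expect_corr_self_pow_nonneg f _) hbig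
  simp only [hF] at h
  have e1 : 26 * (2 * d + 10 + 1) = 26 * (2 * d + 11) := by ring
  rw [e1] at h
  set m := 26 * (2 * d + 11) with hm
  have h2 : 𝔼 x, (corr a a x / (α * α)) ^ m = (𝔼 x, corr a a x ^ m) / (α ^ 2) ^ m := by
    rw [Finset.expect_div]
    refine Finset.expect_congr rfl (fun x _ => ?_)
    rw [div_pow, ← sq]
  rw [h2, le_div_iff₀ (by positivity)] at h
  rw [mul_pow]
  exact h

/-- The density increment step: if `A + B` misses `C`, and `A`, `B`, `C` are all not too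
sparse, then `A` or `B` has a density increment on a coset of a subspace of small
codimension. -/
lemma increment (a b c : V → ℝ) (ha : ∀ x, a x = 0 ∨ a x = 1) (hb : ∀ x, b x = 0 ∨ b x = 1)
    (hc : ∀ x, c x = 0 ∨ c x = 1) (habc : ∀ x y, a x * b y * c (x + y) = 0) {d : ℕ}
    (hd : 1 ≤ d) (hα : (1 / 2 : ℝ) ^ d ≤ 𝔼 x, a x) (hβ : (1 / 2 : ℝ) ^ d ≤ 𝔼 x, b x)
    (hγ : (1 / 2 : ℝ) ^ (d + 1) < 𝔼 x, c x) :
    ∃ W : Submodule (ZMod 2) V,
      finrank (ZMod 2) V ≤ finrank (ZMod 2) W + 12582920 * (d * (26 * (2 * d + 11)) + 1) ^ 4 ∧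
      ((∃ x0, 135 / 128 * (𝔼 x, a x) ≤ avg (sf W) a x0) ∨
        ∃ x0, 135 / 128 * (𝔼 x, b x) ≤ avg (sf W) b x0) := by
  classical
  have hself : ∀ x : V, x + x = 0 := fun x => ZModModule.add_self x
  have hαpos : 0 < 𝔼 x, a x := lt_of_lt_of_le (by positivity) hα
  have hβpos : 0 < 𝔼 x, b x := lt_of_lt_of_le (by positivity) hβ
  set α : ℝ := 𝔼 x, a x with hαd
  set β : ℝ := 𝔼 x, b x with hβd
  set f : V → ℝ := fun y => a y / α - 1 with hf
  set g : V → ℝ := fun y => b y / β - 1 with hg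
  set p : ℕ := 2 * d + 10 with hp
  have hpe : Even p := ⟨d + 5, by rw [hp]; ring⟩
  have h1 : ∀ x, c x ≤ corr f g x ^ p := by
    intro x
    rcases hc x with h | h
    · rw [h]; exact hpe.pow_nonneg _
    · have h2 : corr a b x = 0 := by
        unfold corr
        refine Finset.expect_eq_zero (fun y _ => ?_)
        have h3 := habc y (y + x)
        have h4 : y + (y + x) = x := by rw [← add_assoc, hself, zero_add]
        rw [h4, h, mul_one] at h3
        exact h3
      have h5 : corr f g x = -1 := by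
        rw [hf, hg, corr_normalised a b hαpos.ne' hβpos.ne', h2]
        ring
      rw [h, h5, hpe.neg_one_pow]
  have h2 : (1 / 2 : ℝ) ^ (d + 1) ≤ 𝔼 x, corr f g x ^ p :=
    le_trans hγ.le (Finset.expect_le_expect (fun x _ => h1 x))
  have h3 : (1 / 2 : ℝ) ^ p ≤ (1 / 2) ^ (d + 1) :=
    pow_le_pow_of_le_one (by norm_num) (by norm_num) (by omega)
  have h4 := expect_corr_pow_sq_le f g p
  have h5 : (1 / 2 : ℝ) ^ p * (1 / 2) ^ p
      ≤ (𝔼 x, corr f f x ^ p) * (𝔼 x, corr g g x ^ p) := by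
    refine le_trans ?_ h4
    rw [← sq]
    exact pow_le_pow_left₀ (by positivity) (le_trans h3 h2) 2
  rcases le_or_gt ((1 / 2 : ℝ) ^ p) (𝔼 x, corr f f x ^ p) with h6 | h6
  · obtain ⟨W, hW, hx⟩ := increment_of_even_moment a ha hd hα h6
    exact ⟨W, hW, Or.inl hx⟩
  · have h7 : (1 / 2 : ℝ) ^ p ≤ 𝔼 x, corr g g x ^ p := by
      by_contra hcon
      push Not at hcon
      have h8 : 0 ≤ 𝔼 x, corr f f x ^ p := Finset.expect_nonneg (fun x _ => hpe.pow_nonneg _)
      have h9 : 0 ≤ 𝔼 x, corr g g x ^ p := Finset.expect_nonneg (fun x _ => hpe.pow_nonneg _)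
      have h10 := mul_lt_mul'' h6 hcon h8 h9
      linarith
    obtain ⟨W, hW, hx⟩ := increment_of_even_moment b hb hd hβ h7
    exact ⟨W, hW, Or.inr hx⟩

end Pool.Agent.H77.KM
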