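import Pool.Agent.H77.KM.Increment

set_option autoImplicit false

open Finset Function Module
open scoped BigOperators

namespace Pool.Agent.H77.KM

universe u

/-- Averages over a subspace, seen as averages over the type of its elements. -/
lemma expect_sf_eq {V : Type u} [AddCommGroup V] [Module (ZMod 2) V] [Fintype V]
    (W : Submodule (ZMod 2) V) [Fintype W] (F : V → ℝ) :
    𝔼 w ∈ sf W, F w = 𝔼 w : W, F w := by
  symm
  refine Finset.expect_bij (fun w _ => (w : V)) (fun w _ => mem_sf.mpr w.2)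
    (fun w _ => rfl) (fun w _ w' _ h => Subtype.ext h) (fun v hv => ?_)
  exact ⟨⟨v, mem_sf.mp hv⟩, Finset.mem_univ _, rfl⟩

lemma expect_sf_map {V : Type u} [AddCommGroup V] [Module (ZMod 2) V] [Fintype V]
    (W : Submodule (ZMod 2) V) [Fintype W] (W' : Submodule (ZMod 2) W) (F : V → ℝ) :
    𝔼 w ∈ sf (W'.map W.subtype), F w = 𝔼 w ∈ sf W', F (w : V) := by
  symm
  refine Finset.expect_bij (fun w _ => (w : V)) (fun w hw => ?_)
    (fun w _ => rfl) (fun w _ w' _ h => Subtype.ext h) (fun v hv => ?_)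
  · rw [mem_sf] at hw ⊢
    exact ⟨w, hw, rfl⟩
  · rw [mem_sf] at hv
    obtain ⟨w, hw, rfl⟩ := hv
    exact ⟨w, mem_sf.mpr hw, rfl⟩

/-- The per-step codimension. -/
def stepDim (d : ℕ) : ℕ := 12582920 * (d * (26 * (2 * d + 11)) + 1) ^ 4

/-- Iterating the density increment. -/
theorem iterate_increment (d : ℕ) (hd : 1 ≤ d) (j : ℕ) :
    ∀ (V : Type u) [AddCommGroup V] [Module (ZMod 2) V] [Fintype V] (a b c : V → ℝ),
      (∀ x, a x = 0 ∨ a x = 1) → (∀ x, b x = 0 ∨ b x = 1) → (∀ x, c x = 0 ∨ c x = 1) →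
      (∀ x y, a x * b y * c (x + y) = 0) →
      (1 / 2 : ℝ) ^ d ≤ 𝔼 x, a x → (1 / 2 : ℝ) ^ d ≤ 𝔼 x, b x →
      1 < (𝔼 x, a x) * (𝔼 x, b x) * (135 / 128) ^ j →
      ∃ W : Submodule (ZMod 2) V, finrank (ZMod 2) V ≤ finrank (ZMod 2) W + j * stepDim d ∧
        ∃ x0, avg (sf W) c x0 ≤ (1 / 2) ^ (d + 1) := by
  induction j with
  | zero =>
    intro V _ _ _ a b c ha hb hc habc hα hβ hj
    exfalso
    have ha1 : 𝔼 x, a x ≤ 1 := Finset.expect_le Finset.univ_nonempty
      (fun x _ => by rcases ha x with h | h <;> rw [h] <;> norm_num)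
    have hb1 : 𝔼 x, b x ≤ 1 := Finset.expect_le Finset.univ_nonempty
      (fun x _ => by rcases hb x with h | h <;> rw [h] <;> norm_num)
    have hα0 : 0 ≤ 𝔼 x, a x := le_trans (by positivity) hα
    rw [pow_zero, mul_one] at hj
    nlinarith
  | succ j ih =>
    intro V _ _ _ a b c ha hb hc habc hα hβ hj
    classical
    by_cases hγ : 𝔼 x, c x ≤ (1 / 2 : ℝ) ^ (d + 1)
    · refine ⟨⊤, ?_, 0, ?_⟩
      · rw [finrank_top]; omega
      · have : avg (sf (⊤ : Submodule (ZMod 2) V)) c 0 = 𝔼 x, c x := by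
          unfold avg
          simp only [zero_add]
          congr 1
          ext x
          simp [mem_sf]
        rw [this]
        exact hγ
    · obtain ⟨W, hW, hinc⟩ := increment a b c ha hb hc habc hd hα hβ (not_le.mp hγ)
      -- choose the two cosets
      have hex : ∃ x y, (1 / 2 : ℝ) ^ d ≤ avg (sf W) a x ∧ (1 / 2 : ℝ) ^ d ≤ avg (sf W) b y ∧
          (𝔼 x, a x) * (𝔼 x, b x) * (135 / 128) ≤ avg (sf W) a x * avg (sf W) b y := by
        have hα0 : 0 < 𝔼 x, a x := lt_of_lt_of_le (by positivity) hα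
        have hβ0 : 0 < 𝔼 x, b x := lt_of_lt_of_le (by positivity) hβ
        rcases hinc with ⟨x, hx⟩ | ⟨y, hy⟩
        · obtain ⟨y, _, hy⟩ := Finset.exists_le_of_le_expect Finset.univ_nonempty
            (le_of_eq (expect_avg (sf W) (sf_nonempty W) b).symm)
          refine ⟨x, y, ?_, ?_, ?_⟩
          · linarith
          · linarith
          · calc (𝔼 x, a x) * (𝔼 x, b x) * (135 / 128)
                = (135 / 128 * 𝔼 x, a x) * 𝔼 x, b x := by ring
              _ ≤ _ := mul_le_mul hx hy hβ0.le (by linarith)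
        · obtain ⟨x, _, hx⟩ := Finset.exists_le_of_le_expect Finset.univ_nonempty
            (le_of_eq (expect_avg (sf W) (sf_nonempty W) a).symm)
          refine ⟨x, y, ?_, ?_, ?_⟩
          · linarith
          · linarith
          · calc (𝔼 x, a x) * (𝔼 x, b x) * (135 / 128)
                = (𝔼 x, a x) * (135 / 128 * 𝔼 x, b x) := by ring
              _ ≤ _ := mul_le_mul hx hy (by positivity) (by linarith)
      obtain ⟨x, y, hxa, hyb, hxy⟩ := hex
      have ea : 𝔼 w : W, a (x + w) = avg (sf W) a x := (expect_sf_eq W (fun w => a (x + w))).symm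
      have eb : 𝔼 w : W, b (y + w) = avg (sf W) b y := (expect_sf_eq W (fun w => b (y + w))).symm
      obtain ⟨W', hW', z, hz⟩ := ih W (fun w => a (x + w)) (fun w => b (y + w))
        (fun w => c (x + y + w)) (fun w => ha _) (fun w => hb _) (fun w => hc _)
        (fun w w' => by
          have := habc (x + w) (y + w')
          rw [add_add_add_comm] at this
          exact this)
        (by rw [ea]; exact hxa) (by rw [eb]; exact hyb)
        (by
          rw [ea, eb]
          refine lt_of_lt_of_le hj ?_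
          rw [pow_succ', ← mul_assoc]
          exact mul_le_mul_of_nonneg_right hxy (by positivity))
      refine ⟨W'.map W.subtype, ?_, x + y + z, ?_⟩
      · rw [Submodule.finrank_map_subtype_eq]
        have : stepDim d = 12582920 * (d * (26 * (2 * d + 11)) + 1) ^ 4 := rfl
        rw [← this] at hW
        have h2 : (j + 1) * stepDim d = j * stepDim d + stepDim d := by ring
        rw [h2]
        omega
      · have : avg (sf (W'.map W.subtype)) c (x + y + z)
            = avg (sf W') (fun w : W => c (x + y + w)) z := by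
          unfold avg
          rw [expect_sf_map W W' (fun w => c (x + y + z + w))]
          refine Finset.expect_congr rfl (fun w _ => ?_)
          show c (x + y + z + w) = c (x + y + ((z + w : W) : V))
          rw [Submodule.coe_add, ← add_assoc]
        rw [this]
        exact hz

/-- If `A + B` misses `C` and `A`, `B` have density at least `2^{-d}`, then `C` has density at
most `2^{-d-1}` on a coset of a subspace of codimension at most `27 d * stepDim d`. -/
theorem sparse_coset {V : Type u} [AddCommGroup V] [Module (ZMod 2) V] [Fintype V] (d : ℕ)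
    (hd : 1 ≤ d) (a b c : V → ℝ)
    (ha : ∀ x, a x = 0 ∨ a x = 1) (hb : ∀ x, b x = 0 ∨ b x = 1) (hc : ∀ x, c x = 0 ∨ c x = 1)
    (habc : ∀ x y, a x * b y * c (x + y) = 0)
    (hα : (1 / 2 : ℝ) ^ d ≤ 𝔼 x, a x) (hβ : (1 / 2 : ℝ) ^ d ≤ 𝔼 x, b x) :
    ∃ W : Submodule (ZMod 2) V,
      finrank (ZMod 2) V ≤ finrank (ZMod 2) W + 27 * d * stepDim d ∧
      ∃ x0, avg (sf W) c x0 ≤ (1 / 2) ^ (d + 1) := by
  refine iterate_increment d hd (27 * d) V a b c ha hb hc habc hα hβ ?_
  have h1 : (4 : ℝ) < (135 / 128) ^ 27 := by norm_num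
  have h2 : (4 : ℝ) ^ d < (135 / 128) ^ (27 * d) := by
    rw [pow_mul]
    exact pow_lt_pow_left₀ h1 (by norm_num) (by omega)
  have h3 : (1 / 4 : ℝ) ^ d ≤ (𝔼 x, a x) * (𝔼 x, b x) := by
    have : (1 / 4 : ℝ) ^ d = (1 / 2) ^ d * (1 / 2) ^ d := by rw [← mul_pow]; norm_num
    rw [this]
    exact mul_le_mul hα hβ (by positivity) (le_trans (by positivity) hα)
  calc (1 : ℝ) = (1 / 4) ^ d * 4 ^ d := by rw [← mul_pow]; norm_num
    _ < (1 / 4) ^ d * (135 / 128) ^ (27 * d) := mul_lt_mul_of_pos_left h2 (by positivity)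
    _ ≤ _ := mul_le_mul_of_nonneg_right h3 (by positivity)

lemma stepDim_le (d : ℕ) (hd : 1 ≤ d) : stepDim d ≤ 12582920 * 339 ^ 4 * d ^ 8 := by
  unfold stepDim
  have h1 : d * (26 * (2 * d + 11)) + 1 ≤ 339 * d ^ 2 := by nlinarith
  calc 12582920 * (d * (26 * (2 * d + 11)) + 1) ^ 4 ≤ 12582920 * (339 * d ^ 2) ^ 4 :=
        Nat.mul_le_mul_left _ (Nat.pow_le_pow_left h1 4)
    _ = _ := by ring

end Pool.Agent.H77.KM
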