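import Pool.Agent.H77.KM.Basic

set_option autoImplicit false

open Finset Function
open scoped BigOperators

namespace Pool.Agent.H77.KM

section MGF

variable {ι : Type*} {A : Finset ι}

lemma exp_mul_le_cosh_add (l y : ℝ) (hy : |y| ≤ 1) :
    Real.exp (l * y) ≤ Real.cosh l + y * Real.sinh l := by
  have h1 : 0 ≤ (1 + y) / 2 := by have := (abs_le.mp hy).1; linarith
  have h2 : 0 ≤ (1 - y) / 2 := by have := (abs_le.mp hy).2; linarith
  have h := convexOn_exp.2 (Set.mem_univ l) (Set.mem_univ (-l)) h1 h2 (by ring)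
  simp only [smul_eq_mul] at h
  have e1 : (1 + y) / 2 * l + (1 - y) / 2 * -l = l * y := by ring
  rw [e1] at h
  refine le_trans h (le_of_eq ?_)
  rw [Real.cosh_eq, Real.sinh_eq]
  ring

lemma mgf_bound (hA : A.Nonempty) (h : ι → ℝ) (h0 : 𝔼 i ∈ A, h i = 0)
    (h1 : ∀ i ∈ A, |h i| ≤ 1) (l : ℝ) :
    𝔼 i ∈ A, Real.exp (l * h i) ≤ Real.exp (l ^ 2 / 2) := by
  calc 𝔼 i ∈ A, Real.exp (l * h i) ≤ 𝔼 i ∈ A, (Real.cosh l + h i * Real.sinh l) :=
        Finset.expect_le_expect (fun i hi => exp_mul_le_cosh_add l (h i) (h1 i hi))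
    _ = Real.cosh l := by
        rw [Finset.expect_add_distrib, Finset.expect_const hA, ← Finset.expect_mul, h0]
        ring
    _ ≤ Real.exp (l ^ 2 / 2) := Real.cosh_le_exp_half_sq l

lemma mgf_tuple [DecidableEq ι] (hA : A.Nonempty) (h : ι → ℝ) (h0 : 𝔼 i ∈ A, h i = 0)
    (h1 : ∀ i ∈ A, |h i| ≤ 1) (l : ℝ) (M : ℕ) :
    𝔼 p ∈ Fintype.piFinset (fun _ : Fin M => A), Real.exp (l * ∑ i, h (p i))
      ≤ Real.exp (M * (l ^ 2 / 2)) := by
  have e1 : 𝔼 p ∈ Fintype.piFinset (fun _ : Fin M => A), Real.exp (l * ∑ i, h (p i))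
      = (𝔼 i ∈ A, Real.exp (l * h i)) ^ M := by
    rw [Finset.expect_pow]
    refine Finset.expect_congr rfl (fun p _ => ?_)
    rw [Finset.mul_sum, Real.exp_sum]
  rw [e1, Real.exp_nat_mul]
  exact pow_le_pow_left₀ (Finset.expect_nonneg (fun i _ => (Real.exp_pos _).le))
    (mgf_bound hA h h0 h1 l) M

/-- An even moment bound for a sum of independent centred bounded variables. -/
lemma moment_bound [DecidableEq ι] (hA : A.Nonempty) (h : ι → ℝ) (h0 : 𝔼 i ∈ A, h i = 0)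
    (h1 : ∀ i ∈ A, |h i| ≤ 1) {ρ M : ℕ} (hρ : 0 < ρ) (hM : 0 < M) :
    𝔼 p ∈ Fintype.piFinset (fun _ : Fin M => A), (∑ i, h (p i)) ^ (2 * ρ)
      ≤ 2 * (6 * ρ * M) ^ ρ := by
  have hρ' : (0 : ℝ) < ρ := by exact_mod_cast hρ
  have hM' : (0 : ℝ) < M := by exact_mod_cast hM
  set l : ℝ := Real.sqrt (2 * ρ / M) with hl
  have hl2 : l ^ 2 = 2 * ρ / M := Real.sq_sqrt (by positivity)
  have key : ∀ S : ℝ, (l * S) ^ (2 * ρ)
      ≤ (2 * ρ : ℝ) ^ (2 * ρ) * (Real.exp (l * S) + Real.exp (-l * S)) := by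
    intro S
    have heven : Even (2 * ρ) := even_two_mul ρ
    have h2 := Real.pow_div_factorial_le_exp |l * S| (abs_nonneg _) (2 * ρ)
    have h3 : Real.exp |l * S| ≤ Real.exp (l * S) + Real.exp (-l * S) := by
      rcases abs_cases (l * S) with ⟨h, _⟩ | ⟨h, _⟩
      · rw [h]; linarith [Real.exp_pos (-l * S)]
      · rw [h, neg_mul]; linarith [Real.exp_pos (l * S)]
    rw [heven.pow_abs] at h2
    have hfac : (0 : ℝ) < ((2 * ρ).factorial : ℝ) := by exact_mod_cast Nat.factorial_pos _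
    rw [div_le_iff₀ hfac] at h2
    have h4 : ((2 * ρ).factorial : ℝ) ≤ (2 * ρ : ℝ) ^ (2 * ρ) := by
      exact_mod_cast Nat.factorial_le_pow (2 * ρ)
    calc (l * S) ^ (2 * ρ) ≤ Real.exp |l * S| * ((2 * ρ).factorial : ℝ) := h2
      _ ≤ (Real.exp (l * S) + Real.exp (-l * S)) * (2 * ρ : ℝ) ^ (2 * ρ) :=
        mul_le_mul h3 h4 hfac.le (by positivity)
      _ = _ := by ring
  have step : 𝔼 p ∈ Fintype.piFinset (fun _ : Fin M => A), (l * ∑ i, h (p i)) ^ (2 * ρ)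
      ≤ (2 * ρ : ℝ) ^ (2 * ρ) * (2 * 3 ^ ρ) := by
    calc 𝔼 p ∈ Fintype.piFinset (fun _ : Fin M => A), (l * ∑ i, h (p i)) ^ (2 * ρ)
        ≤ 𝔼 p ∈ Fintype.piFinset (fun _ : Fin M => A), (2 * ρ : ℝ) ^ (2 * ρ) *
          (Real.exp (l * ∑ i, h (p i)) + Real.exp (-l * ∑ i, h (p i))) :=
          Finset.expect_le_expect (fun p _ => key _)
      _ = (2 * ρ : ℝ) ^ (2 * ρ) *
          ((𝔼 p ∈ Fintype.piFinset (fun _ : Fin M => A), Real.exp (l * ∑ i, h (p i)))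
          + 𝔼 p ∈ Fintype.piFinset (fun _ : Fin M => A), Real.exp (-l * ∑ i, h (p i))) := by
          rw [← Finset.mul_expect, Finset.expect_add_distrib]
      _ ≤ (2 * ρ : ℝ) ^ (2 * ρ) * (2 * 3 ^ ρ) := by
          refine mul_le_mul_of_nonneg_left ?_ (by positivity)
          have b1 := mgf_tuple hA h h0 h1 l M
          have b2 := mgf_tuple hA h h0 h1 (-l) M
          have e : (M : ℝ) * (l ^ 2 / 2) = ρ * 1 := by
            rw [hl2]; field_simp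
          rw [neg_sq] at b2
          rw [e, Real.exp_nat_mul] at b1 b2
          have h3 : Real.exp 1 ^ ρ ≤ 3 ^ ρ :=
            pow_le_pow_left₀ (Real.exp_pos _).le (by linarith [Real.exp_one_lt_d9]) ρ
          linarith
  have e1 : 𝔼 p ∈ Fintype.piFinset (fun _ : Fin M => A), (l * ∑ i, h (p i)) ^ (2 * ρ)
      = (2 * ρ / M) ^ ρ *
        𝔼 p ∈ Fintype.piFinset (fun _ : Fin M => A), (∑ i, h (p i)) ^ (2 * ρ) := by
    rw [Finset.mul_expect]
    refine Finset.expect_congr rfl (fun p _ => ?_)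
    rw [mul_pow, pow_mul l, hl2]
  rw [e1] at step
  have hpos : (0 : ℝ) < (2 * ρ / M) ^ ρ := by positivity
  have e2 : (2 * ρ : ℝ) ^ (2 * ρ) * (2 * 3 ^ ρ) = (2 * ρ / M) ^ ρ * (2 * (6 * ρ * M) ^ ρ) := by
    have : (2 * ρ : ℝ) ^ (2 * ρ) = (2 * ρ) ^ ρ * (2 * ρ) ^ ρ := by
      rw [← pow_add, ← two_mul ρ]
    rw [this]
    calc (2 * ρ : ℝ) ^ ρ * (2 * ρ) ^ ρ * (2 * 3 ^ ρ)
        = 2 * ((2 * ρ : ℝ) * (2 * ρ) * 3) ^ ρ := by
          rw [mul_pow ((2 * ρ : ℝ) * (2 * ρ)) 3, mul_pow (2 * ρ : ℝ) (2 * ρ)]; ring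
      _ = 2 * ((2 * ρ / M) * (6 * ρ * M)) ^ ρ := by
          congr 2
          field_simp
          ring
      _ = _ := by rw [mul_pow]; ring
  rw [e2] at step
  exact le_of_mul_le_mul_left step hpos

end MGF

end Pool.Agent.H77.KM
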